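import Pool.Agent.Lib.MP_640417_ag.FC.Core.SwAbs
import Pool.Agent.Lib.MP_640417_ag.FC.Core.SawCoset
import Pool.Agent.Lib.MP_640417_ag.FC.Core.GeomDer
import Pool.Agent.Lib.MP_640417_ag.FC.Core.Reindex
import Pool.Agent.Lib.MP_640417_ag.FC.Core.CoefExact
import Pool.Agent.Lib.MP_640417_ag.FC.Core.Est
import Pool.Agent.Lib.MP_640417_ag.FC.Core.Period
import Pool.Agent.Lib.MP_640417_ag.FC.Core.Least
import Pool.Agent.Lib.MP_640417_ag.FC.Core.Far
import Pool.Agent.Lib.MP_640417_ag.FC.Core.Near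
import Pool.Agent.Lib.MP_640417_ag.FC.Core.Tot
import Pool.Agent.Lib.MP_640417_ag.FC.Core.Small
import Pool.Agent.Lib.MP_640417_ag.FC.Core.Norm
import Pool.Agent.Lib.MP_640417_ag.FC.Core.Roots
import Pool.Agent.Lib.MP_640417_ag.FC.Core.Van
import Pool.Agent.Lib.MP_640417_ag.FC.Core.FamC
import Pool.Agent.Lib.MP_640417_ag.FC.Core.Cyc
import Pool.Agent.Lib.MP_640417_ag.FC.Core.Merge
import Pool.Agent.Lib.MP_640417_ag.FC.Core.Prog
import Pool.Agent.Lib.MP_640417_ag.FC.Core.Num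
import Pool.Agent.Lib.MP_640417_ag.FC.Core.Step
import Pool.Agent.Lib.MP_640417_ag.FC.Core.CoreAsm

/-! # FE: the core lemma, assembled -/

namespace Pool.Agent.FC

theorem t_Core : S_Core :=
  have hCoef := t_CoefExact t_SawCoset t_GeomDer t_Reindex
  have hFar := t_Far hCoef t_Est t_Period t_Least
  have hNear := t_Near hCoef t_Est t_Period
  have hTot := t_Tot t_SwAbs
  have hSmall := t_Small hFar hNear hTot
  have hFamC := t_FamC hSmall t_Norm (t_Van t_Roots)
  t_CoreAsm t_Prog (t_Step hFamC t_Cyc t_Num) t_Merge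

end Pool.Agent.FC
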