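import Pool.Agent.Lib.MP_640417_ag.FC.Defs

/-!
# FE: basic facts about `ee x = e(x) = exp(2 pi i x)` for the core lemma
-/

noncomputable section

open Finset

namespace Pool.Agent.FC

theorem ee_zero : ee 0 = 1 := by simp [ee]

theorem ee_add (x y : UnitAddCircle) : ee (x + y) = ee x * ee y := by
  simp [ee, AddCircle.toCircle_add]

theorem ee_neg (x : UnitAddCircle) : ee (-x) = (ee x)⁻¹ := by
  simp [ee, AddCircle.toCircle_neg]

theorem ee_nsmul (n : ℕ) (x : UnitAddCircle) : ee (n • x) = ee x ^ n := by
  simp [ee, AddCircle.toCircle_nsmul]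

theorem ee_zsmul (n : ℤ) (x : UnitAddCircle) : ee (n • x) = ee x ^ n := by
  simp [ee, AddCircle.toCircle_zsmul]

theorem norm_ee (x : UnitAddCircle) : ‖ee x‖ = 1 := by simp [ee]

theorem ee_ne_zero (x : UnitAddCircle) : ee x ≠ 0 := by
  intro h
  have := norm_ee x
  rw [h] at this
  simp at this

theorem ee_inj {x y : UnitAddCircle} (h : ee x = ee y) : x = y := by
  have h2 : AddCircle.toCircle x = AddCircle.toCircle y := by
    apply Subtype.ext
    exact h
  exact AddCircle.injective_toCircle one_ne_zero h2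

theorem ee_eq_one_iff {x : UnitAddCircle} : ee x = 1 ↔ x = 0 := by
  constructor
  · intro h
    rw [← ee_zero] at h
    exact ee_inj h
  · rintro rfl
    exact ee_zero

theorem ee_coe (r : ℝ) : ee (r : UnitAddCircle) = Complex.exp (2 * Real.pi * r * Complex.I) := by
  have h : ((AddCircle.toCircle (r : UnitAddCircle) : Circle) : ℂ) =
      Complex.exp (((2 * Real.pi / 1 * r : ℝ) : ℂ) * Complex.I) := by
    rw [AddCircle.toCircle_apply_mk]
    exact Circle.coe_exp _
  rw [ee, h]
  congr 1
  push_cast
  ring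

end Pool.Agent.FC
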