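import Mathlib

/-!
# Tate characters of Fermat varieties: definitions

`UnitAddCircle = ℝ/ℤ`.  A character of level `m` and length `N` is a tuple `a : Fin N → ZMod m`.
-/

set_option autoImplicit false

noncomputable section

namespace Pool.Agent.FC

open Finset

/-- `{x} - 1/2` -/
def sw (x : UnitAddCircle) : ℝ := (AddCircle.equivIco 1 0 x : ℝ) - 1 / 2

/-- Stickelberger's relation: for all `t` prime to the orders of the entries, the fractional parts of
the entries `t x_i` have the mean value `1/2`. -/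
def Rel {ι : Type} [Fintype ι] (x : ι → UnitAddCircle) : Prop :=
  ∀ t : ℕ, (∀ i, t.Coprime (addOrderOf (x i))) → ∑ i, sw (t • x i) = 0

/-- Stickelberger's relation for the entries with index in `s`. -/
def RelOn {ι : Type} (s : Finset ι) (x : ι → UnitAddCircle) : Prop :=
  ∀ t : ℕ, (∀ i ∈ s, t.Coprime (addOrderOf (x i))) → ∑ i ∈ s, sw (t • x i) = 0

/-- `a` is a Tate character of level `m`: all entries are nonzero, their sum is zero, and for all primes
`p ≡ 1` mod `m`, all characters `χ` of order `m` of the field with `p` elements and all nontrivial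
additive characters `ψ` the product of the Gauss sums `g(χ^{a_i}, ψ)`, divided by `p ^ (N / 2)`, is a
root of unity. -/
def IsTate (m : ℕ) {N : ℕ} (a : Fin N → ZMod m) : Prop :=
  (∀ i, a i ≠ 0) ∧ ∑ i, a i = 0 ∧
    ∀ (p : ℕ) [Fact p.Prime], m ∣ p - 1 → ∀ χ : MulChar (ZMod p) ℂ, orderOf χ = m →
      ∀ ψ : AddChar (ZMod p) ℂ, ψ ≠ 1 →
        ∃ k : ℕ, 0 < k ∧ (∏ i, gaussSum (χ ^ (a i).val) ψ) ^ (2 * k) = (p : ℂ) ^ (N * k)

/-- the group generated by the pairs `[y] + [-y]` and the relations of Hasse and Davenport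
`∑_{j < n} [y + j/n] - [n y]` in the free abelian group on `ℝ/ℤ` (all classes are those of nonzero
elements) -/
def HD : AddSubgroup (UnitAddCircle →₀ ℤ) := AddSubgroup.closure
  ({f | ∃ y : UnitAddCircle, y ≠ 0 ∧ f = Finsupp.single y 1 + Finsupp.single (-y) 1} ∪
   {f | ∃ (n : ℕ) (y : UnitAddCircle), n ≠ 0 ∧ n • y ≠ 0 ∧
      f = ∑ j ∈ range n, Finsupp.single (y + ((j / n : ℝ) : UnitAddCircle)) 1 -
        Finsupp.single (n • y) 1})

/-- the entries of `a` are, up to the order, `b_1, -b_1, b_2, -b_2, …` -/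
def PairSum {m N : ℕ} (a : Fin N → ZMod m) : Prop :=
  ∃ σ : Equiv.Perm (Fin N), ∀ i, σ (σ i) = i ∧ σ i ≠ i ∧ a (σ i) = -a i

/-- the least common multiple of `1, …, (32 N) ^ (2 N)` -/
def MM (N : ℕ) : ℕ := (Icc 1 ((32 * N) ^ (2 * N))).lcm id

/-- The entries `x_i`, `i ∈ s`, are a member of a one-parameter family of relations with bound `D`:
`x_i = u_i w + c_i` with nonzero integers `u_i` with `∑ |u_i| ≤ D`, with `c_i` of order dividing the least
common multiple of `1, …, D`, and `w` of finite order; and for every `w'` of finite order for which they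
are not zero the elements `u_i w' + c_i` satisfy Stickelberger's relation, and their formal sum is in the
group `HD`. -/
def Blk (D : ℕ) {ι : Type} (s : Finset ι) (u : ι → ℤ) (c x : ι → UnitAddCircle) : Prop :=
  (∀ i ∈ s, u i ≠ 0) ∧ ∑ i ∈ s, |u i| ≤ D ∧ (∀ i ∈ s, (Icc 1 D).lcm id • c i = 0) ∧
    (∃ w : UnitAddCircle, IsOfFinAddOrder w ∧ ∀ i ∈ s, x i = u i • w + c i) ∧
    ∀ w : UnitAddCircle, IsOfFinAddOrder w → (∀ i ∈ s, u i • w + c i ≠ 0) →
      RelOn s (fun i => u i • w + c i) ∧
      ∑ i ∈ s, Finsupp.single (u i • w + c i) (1 : ℤ) ∈ HD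

/-- Decomposition of the tuple `x` with bounds `M` and `D`.  `b` divides the indices into a set `none` and
blocks.  The entries in `none` are killed by `M` and satisfy Stickelberger's relation.  The entries of
every block are a member of a one-parameter family of relations with bound `D`. -/
def Dec (M D : ℕ) {N : ℕ} (x : Fin N → UnitAddCircle) : Prop :=
  ∃ (b : Fin N → Option (Fin N)) (u : Fin N → ℤ) (c : Fin N → UnitAddCircle),
    (∀ i, b i = none → M • x i = 0) ∧ RelOn {i | b i = none} x ∧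
    ∀ β : Fin N, Blk D {i | b i = some β} u c x

/-! ## Auxiliary definitions (not used in the final statement) -/

/-- `exp(2 π i x)` -/
def ee (x : UnitAddCircle) : ℂ := (AddCircle.toCircle x : ℂ)

/-- family block: all `K_i` are nonzero, and every `θ` is a root of as many equations `K_i θ = x_i` with
`K_i > 0` as with `K_i < 0` -/
def Fam {ι : Type} (C : Finset ι) (K : ι → ℤ) (x : ι → UnitAddCircle) : Prop := by
  classical
  exact (∀ i ∈ C, K i ≠ 0) ∧ ∀ θ : UnitAddCircle, ∑ i ∈ C with K i • θ = x i, (K i).sign = 0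

/-- **Core lemma (helper15).** A relation which is not killed by `MM N` contains a family block. -/
def S_Core : Prop :=
  ∀ (N : ℕ) (ι : Type) [Fintype ι] [DecidableEq ι] (x : ι → UnitAddCircle), Fintype.card ι ≤ N →
    (∀ i, IsOfFinAddOrder (x i)) → (∀ i, x i ≠ 0) → Rel x → (∃ i, MM N • x i ≠ 0) →
    ∃ (C : Finset ι) (K : ι → ℤ), C.Nonempty ∧ Fam C K x ∧ ∑ i ∈ C, |K i| ≤ 2 ^ (N - 1)

/-- `E = χ^a(-1) p ∏_{0 < i < m' - 1} J(χ^a, χ^{a i})`, `m' = m / (m, a)`: for `χ` of order `m` this is the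
`m'`-th power of the Gauss sum of `χ^a` -/
def GP {p : ℕ} [Fact p.Prime] {R : Type} [CommRing R] (m : ℕ) (χ : MulChar (ZMod p) R) (a : ℕ) : R :=
  (χ ^ a) (-1) * p * ∏ i ∈ Ico 1 (m / m.gcd a - 1), jacobiSum (χ ^ a) (χ ^ (a * i))

end Pool.Agent.FC
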