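import Pool.Agent.Lib.MP_640417_ag.FC.B.Dec
import Pool.Agent.Lib.MP_640417_ag.FC.B.RT
import Pool.Agent.Lib.MP_640417_ag.FC.B.TR
import Pool.Agent.Lib.MP_640417_ag.FC.B.Cnt
import Pool.Agent.Lib.MP_640417_ag.FC.B.CntF
import Pool.Agent.Lib.MP_640417_ag.FC.B.Red
import Pool.Agent.Lib.MP_640417_ag.FC.B.JV
import Pool.Agent.Lib.MP_640417_ag.FC.B.EV
import Pool.Agent.Lib.MP_640417_ag.FC.B.Div
import Pool.Agent.Lib.MP_640417_ag.FC.B.Tot
import Pool.Agent.Lib.MP_640417_ag.FC.B.HDRel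
import Pool.Agent.Lib.MP_640417_ag.FC.B.PS
import Pool.Agent.Lib.MP_640417_ag.FC.B.Roots
import Pool.Agent.Lib.MP_640417_ag.FC.B.Tei
import Pool.Agent.Lib.MP_640417_ag.FC.B.Pol
import Pool.Agent.Lib.MP_640417_ag.FC.B.RM
import Pool.Agent.Lib.MP_640417_ag.FC.B.Sw
import Pool.Agent.Lib.MP_640417_ag.FC.B.Comp
import Pool.Agent.Lib.MP_640417_ag.FC.B.Chr
import Pool.Agent.Lib.MP_640417_ag.FC.B.Gp
import Pool.Agent.Lib.MP_640417_ag.FC.B.Int
import Pool.Agent.Lib.MP_640417_ag.FC.B.Fix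
import Pool.Agent.Lib.MP_640417_ag.FC.B.Mat
import Pool.Agent.Lib.MP_640417_ag.FC.B.BlkS
import Pool.Agent.Lib.MP_640417_ag.FC.B.FamHD
import Pool.Agent.Lib.MP_640417_ag.FC.B.BlkE
import Pool.Agent.Lib.MP_640417_ag.FC.B.Cou
import Pool.Agent.Lib.MP_640417_ag.FC.B.IT
import Pool.Agent.Lib.MP_640417_ag.FC.B.Final
import Pool.Agent.Lib.MP_640417_ag.FC.B.Kro
import Pool.Agent.Lib.MP_640417_ag.FC.B.PT
import Pool.Agent.Lib.MP_640417_ag.FC.B.Dis
import Pool.Agent.Lib.MP_640417_ag.FC.B.Tr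
import Pool.Agent.Lib.MP_640417_ag.FC.B.Cop

/-! THEOREM FE: assembly of part B. -/

namespace Pool.Agent.FC

/-- Part B: everything from the core lemma. -/
theorem partB (hC : S_Core) : S_Final := by
  have hDis : S_Dis := tDis tSw
  have hRM : S_RM := tRM tCop tSw
  have hFam : S_FamHD := tFamHD tRootsB
  have hHD : S_HDRel := tHDRel tCop tSw hDis
  have hBlkE : S_BlkE := tBlkE hFam hHD tComp
  have hDec : S_Dec := tDec hC tCop hBlkE
  have hEV : S_EV := tEV tJV tCou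
  have hTR : S_TR := tTR tTr tTei tChr tGp tPol hEV
  have hDiv : S_Div := tDiv tTei
  have hRT : S_RT := tRT tTei tChr tGp tPol hEV hDiv tKro
  have hIT : S_IT := tIT hRM tChr hTR hRT
  have hPT : S_PT := tPT hRT
  have hBlkS : S_BlkS := tBlkS tSw
  have hCnt : S_Cnt := tCnt hBlkS tPS tCntF
  have hTot : S_TotB := tTotB tMat tFix tInt
  have hRed : S_Red := tRed tSw hIT
  exact tFinal hDec hTR hRM hIT hPT hCnt hTot hRed

end Pool.Agent.FC
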