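import Pool.Agent.Lib.MP_640417_ag.FC.AsmCore
import Pool.Agent.Lib.MP_640417_ag.FC.Hand

/-! THEOREM FE, complete. -/

namespace Pool.Agent.FC

/-- **THEOREM FE.** -/
theorem final : S_Final := partB t_Core

end Pool.Agent.FC
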