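import Pool.Agent.Lib.MP_640417_ag.FC.Defs

/-!
# MP_640417_ag, project FC (Tate characters of Fermat varieties), part B (helper1)

THEOREM FE (helper15, helper1). Part A (the core lemma `S_Core`) is `FC/SpecCore.lean` (helper15). Part B,
this file: elementary facts (`S_Cop … S_RM`), family blocks and the group `HD` (`S_RootsB … S_Dec`), Gauss sums
(`S_Tr … S_IT`), counting (`S_BlkS … S_TotB`), final theorem (`S_Red`, `S_Final`).

RULES.  Module X: file `Pool/Agent/Lib/MP_640417_ag/FC/B/X.lean`, first line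
`import Pool.Agent.Lib.MP_640417_ag.FC.SpecB` (import NO other module), then `noncomputable section`,
`namespace Pool.Agent.FC`, `open Finset`, final theorem `theorem tX (h1 : S_..) .. : S_X`, the statements
listed under *Uses* being the hypotheses, in this order.  All other declarations `private`.  No `sorry`, no
`native_decide`, no quotation marks.  Questions: helper1.
-/

set_option autoImplicit false

noncomputable section

namespace Pool.Agent.FC

open Finset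

/-! ## Small facts -/

theorem MM_ne_zero (N : ℕ) : MM N ≠ 0 := by
  unfold MM
  rw [Ne, Finset.lcm_eq_zero_iff]
  simp

instance instMM (N : ℕ) : NeZero (MM N) := ⟨MM_ne_zero N⟩

open Classical in
theorem fam_iff {ι : Type} (C : Finset ι) (K : ι → ℤ) (x : ι → UnitAddCircle) :
    Fam C K x ↔ (∀ i ∈ C, K i ≠ 0) ∧
      ∀ θ : UnitAddCircle, ∑ i ∈ C, (if K i • θ = x i then (K i).sign else 0) = 0 := by
  unfold Fam
  simp only [Finset.sum_filter]

/-- the integer `∑ |u_i|` bounds every `|u_i|` -/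
theorem abs_le_of_sum {ι : Type} {s : Finset ι} {u : ι → ℤ} {D : ℕ} (h : ∑ i ∈ s, |u i| ≤ D) {i : ι}
    (hi : i ∈ s) : |u i| ≤ D :=
  (Finset.single_le_sum (f := fun i => |u i|) (fun j _ => abs_nonneg (u j)) hi).trans h

/-! ## Elementary facts -/

/-- **Cop.** A residue class prime to `L` contains numbers prime to `L M`.
*Uses:* nothing.
*Proof.* `ZMod.unitsMap_surjective` for `L ∣ L * M`: lift the unit `ZMod.unitOfCoprime t h` of `ZMod L` to a
unit `v` of `ZMod (L * M)` and take `t' = (v : ZMod (L * M)).val` (`ZMod.val_coe_unit_coprime`). -/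
def S_Cop : Prop :=
  ∀ L M t : ℕ, 0 < L → 0 < M → t.Coprime L → ∃ t' : ℕ, t' ≡ t [MOD L] ∧ t'.Coprime (L * M)

/-- **Sw.** The function `sw`.
*Uses:* nothing.
*Proof.* (2) `AddCircle.coe_equivIco_mk_apply`: `equivIco 1 0 ↑r = fract (r / 1) * 1` (or
`toIcoMod`). (1) `0 ≤ fract < 1`. (3) every `x` is `↑r` with `0 ≤ r < 1`, `r ≠ 0` if `x ≠ 0`, so
`fract (-r) = 1 - r`. (4) `x_i = ↑(sw x_i + 1/2)` (because `↑(fract r) = ↑r`), so
`∑ x_i = ↑(∑ sw x_i + card / 2) = ↑(card / 2)`. (5) `y = ↑r`; with `r' = n fract r`, `k = ⌊r'⌋`, i.e.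
`fract r = (k + ρ) / n`, `0 ≤ k < n`, `0 ≤ ρ < 1`: `fract (r + j / n) = (ρ + (k + j) % n) / n`, the
numbers `(k + j) % n` are `0, …, n - 1` in some order, so `∑_j fract (r + j / n) = ρ + (n - 1) / 2`, and
`fract (n r) = ρ`. Hence `∑_j (fract (r + j / n) - 1/2) = ρ - 1/2`. -/
def S_Sw : Prop :=
  (∀ x : UnitAddCircle, |sw x| ≤ 1 / 2) ∧
  (∀ r : ℝ, sw (r : UnitAddCircle) = Int.fract r - 1 / 2) ∧
  (∀ x : UnitAddCircle, x ≠ 0 → sw (-x) = -sw x) ∧
  (∀ (ι : Type) (s : Finset ι) (x : ι → UnitAddCircle), ∑ i ∈ s, sw (x i) = 0 →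
    ∑ i ∈ s, x i = ((s.card / 2 : ℝ) : UnitAddCircle)) ∧
  ∀ (n : ℕ) (y : UnitAddCircle), 0 < n →
    ∑ j ∈ range n, sw (y + ((j / n : ℝ) : UnitAddCircle)) = sw (n • y)

/-- **Dis.** The distribution relation with a multiplier `t` prime to `n`.
*Uses:* `S_Sw` (5).
*Proof.* `t • (y + j / n) = t • y + (t j % n) / n` in `ℝ/ℤ` (`t j = (t j % n) + n q`), and `j ↦ t j % n` is a
permutation of `range n` (`t` prime to `n`; `Finset.sum_nbij` or `Finset.sum_bij`, injective by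
`Nat.ModEq.cancel_left_of_coprime`). So the sum is `∑_j sw (t • y + j / n) = sw (n • t • y)`. -/
def S_Dis : Prop :=
  ∀ (n t : ℕ) (y : UnitAddCircle), 0 < n → t.Coprime n →
    ∑ j ∈ range n, sw (t • (y + ((j / n : ℝ) : UnitAddCircle))) = sw (t • n • y)

/-- **RM.** The relation for tuples of level `m` in terms of residues.
*Uses:* `S_Cop`, `S_Sw` (2).
*Proof.* `ZMod.toAddCircle_apply`: `toAddCircle j = ↑(j.val / m : ℝ)`. So
`t • toAddCircle j = ↑(t j.val / m)`, and `sw` of it is `(t * j.val % m : ℕ) / m - 1/2`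
(`fract (n / m) = (n % m) / m`: `Nat.cast_div…`, or `Int.fract_div_natCast_eq_div_natCast_mod`). Hence
`m ∑ sw = ∑ (t * (a i).val % m) - N m / 2`. (→): `m • toAddCircle (a i) = 0`, so the orders divide `m`, and
`t` prime to `m` is prime to them. (←): let `t` be prime to all orders `o_i` of the entries
(`o_i ∣ m`), `L = ∏ o_i`; then `t` is prime to `L`, `S_Cop` (`M = m`) gives `t' ≡ t` mod `L` prime to `m`;
`t' • x_i = t • x_i` because `t' ≡ t` mod `o_i` (`addOrderOf`, `nsmul_eq_nsmul_iff_modEq`). -/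
def S_RM : Prop :=
  ∀ (m N : ℕ) [NeZero m] (a : Fin N → ZMod m),
    (RelOn univ (fun i => ZMod.toAddCircle (a i)) ↔
      ∀ t : ℕ, t.Coprime m → 2 * ∑ i, (t * (a i).val % m) = N * m)

/-! ## Family blocks and the group `HD` -/

/-- **Roots.** Modulo `HD` the class of `x` is `± ` the sum of the classes of the `θ` with `K θ = x`.
*Uses:* nothing.
*Proof.* Let `K = n > 0`. `x = ↑r`; put `y = ↑(r / n)`, `n • y = x ≠ 0`. The solutions of `n θ = x` are the
`y + j / n`, `0 ≤ j < n`, pairwise different (`n (θ - y) = 0` iff `θ - y = ↑(j / n)` for some `j < n`: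
write `θ - y = ↑s`, `n s ∈ ℤ`, `j = n s mod n`). `s := image` of `range n`; the sum over `s` is the sum over
`range n` (`Finset.sum_image`), and the generator of the second kind of `HD` (with its sign changed) is the
claim. Let `K = -n < 0`: `K θ = x` iff `n θ = -x`, and `-x ≠ 0`; `[x] + ∑ [θ] = ([x] + [-x]) - ([-x] - ∑ [θ])`
is in `HD` by the first case and the generator of the first kind. -/
def S_RootsB : Prop :=
  ∀ (K : ℤ) (x : UnitAddCircle), K ≠ 0 → x ≠ 0 →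
    ∃ s : Finset UnitAddCircle, (∀ θ, θ ∈ s ↔ K • θ = x) ∧
      Finsupp.single x (1 : ℤ) - K.sign • ∑ θ ∈ s, Finsupp.single θ (1 : ℤ) ∈ HD

/-- **FamHD.** The formal sum of a family block, moved by any `w`, is in `HD`.
*Uses:* `S_RootsB`.
*Proof.* Put `x'_i = K_i w + x_i`. `K_i θ = x'_i` iff `K_i (θ - w) = x_i`, so `Fam C K x'` (`fam_iff`). For
`i ∈ C` let `s_i` be the set of `S_RootsB` for `(K_i, x'_i)`; modulo `HD` the sum `∑ [x'_i]` is
`∑_i sign K_i ∑_{θ ∈ s_i} [θ]`. Its value at `θ` is `∑_{i ∈ C, K_i θ = x'_i} sign K_i = 0` (`Finsupp.ext`). So it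
is zero. -/
def S_FamHD : Prop :=
  ∀ (ι : Type) (C : Finset ι) (K : ι → ℤ) (x : ι → UnitAddCircle), Fam C K x →
    ∀ w : UnitAddCircle, (∀ i ∈ C, K i • w + x i ≠ 0) →
      ∑ i ∈ C, Finsupp.single (K i • w + x i) (1 : ℤ) ∈ HD

/-- **HDRel.** A tuple of elements of finite order whose formal sum is in `HD` is a relation.
*Uses:* `S_Cop`, `S_Sw` (3), `S_Dis`.
*Proof.* For `f : UnitAddCircle →₀ ℤ` and `t : ℕ` put `Φ_t f = ∑_y f(y) sw (t • y)` (additive in `f`:
`Finsupp.liftAddHom` or `f.sum fun y n => n * sw (t • y)`). CLAIM: for `f ∈ HD` there is `L > 1` such that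
`Φ_t f = 0` for all `t` prime to `L` (so `t ≠ 0`). `AddSubgroup.closure_induction`: generator
`[y] + [-y]`: `L = 2 * max (addOrderOf y) 1`; if `t` is prime to `L`, then `t • y ≠ 0` (if `y` has finite order
`o`, `t • y = 0` gives `o ∣ t`, so `o = 1`, `y = 0`; if `y` has infinite order then `t ≠ 0` suffices), so
`sw (t • y) + sw (t • -y) = 0`. Generator of the second kind: `L = 2 * n` and `S_Dis`. Zero: `L = 2`. Sum: the
product of the two `L`. Negative: the same `L`.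
Let `f = ∑ [x_i]`, `t` prime to all orders `o_i > 0` of the `x_i`, `i ∈ s`. `P = ∏_{i ∈ s} o_i`, `t` is prime to
`P`; `S_Cop` gives `t' ≡ t` mod `P` prime to `P * L`. Then `t' • x_i = t • x_i` and
`∑_{i ∈ s} sw (t • x_i) = Φ_{t'} f = 0`. -/
def S_HDRel : Prop :=
  ∀ (ι : Type) (s : Finset ι) (x : ι → UnitAddCircle), (∀ i ∈ s, IsOfFinAddOrder (x i)) →
    ∑ i ∈ s, Finsupp.single (x i) (1 : ℤ) ∈ HD → RelOn s x

/-- **Comp.** A family block contains a family block whose entries are `K_i θ_0 +` (an element killed by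
`L`).
*Uses:* nothing.
*Proof.* Choose `i_0 ∈ C` and `θ_0` with `K_{i_0} θ_0 = x_{i_0}` (divisibility of `ℝ/ℤ`, `K_{i_0} ≠ 0`: `x = ↑r`,
`θ_0 = ↑(r / K)`); it has finite order because `x_{i_0}` has. Let
`C' = {i ∈ C : ∃ θ, L • (θ - θ_0) = 0 ∧ K_i θ = x_i}`; `i_0 ∈ C'`. For `i ∈ C'` EVERY `θ'` with `K_i θ' = x_i`
satisfies `L • (θ' - θ_0) = 0`: `K_i (θ' - θ) = 0` and `K_i ∣ L`. So for given `θ'`: if
`L • (θ' - θ_0) = 0`, then `{i ∈ C' : K_i θ' = x_i} = {i ∈ C : K_i θ' = x_i}` and the sum of the signs is zero;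
otherwise no `i ∈ C'` has `K_i θ' = x_i` and the sum is empty. Hence `Fam C' K x` (`fam_iff`). For `i ∈ C'`:
`x_i - K_i θ_0 = K_i (θ - θ_0)` is killed by `L`. -/
def S_Comp : Prop :=
  ∀ (ι : Type) (C : Finset ι) (K : ι → ℤ) (x : ι → UnitAddCircle) (L : ℕ), Fam C K x →
    C.Nonempty → (∀ i ∈ C, (K i).natAbs ∣ L) → (∀ i ∈ C, IsOfFinAddOrder (x i)) →
    ∃ C' : Finset ι, C' ⊆ C ∧ C'.Nonempty ∧ Fam C' K x ∧
      ∃ θ : UnitAddCircle, IsOfFinAddOrder θ ∧ ∀ i ∈ C', L • (x i - K i • θ) = 0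

/-- **BlkE.** A family block contains a block in the sense of `Blk`.
*Uses:* `S_FamHD`, `S_HDRel`, `S_Comp`.
*Proof.* `L = (Icc 1 D).lcm id`; `1 ≤ |K_i| ≤ D` (`abs_le_of_sum`), so `(K i).natAbs ∣ L`
(`Finset.dvd_lcm`). Take `C'`, `θ` of `S_Comp` and `c_i = x_i - K_i θ`. Then `∑_{C'} |K_i| ≤ ∑_C |K_i| ≤ D`,
`L • c_i = 0`, `x_i = K_i θ + c_i`. For `w` of finite order with `K_i w + c_i ≠ 0` (`i ∈ C'`):
`K_i w + c_i = K_i (w - θ) + x_i`, so `S_FamHD` for `C'` and `w - θ` gives the membership in `HD`, and `S_HDRel`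
gives the relation (the entries have finite order). -/
def S_BlkE : Prop :=
  ∀ (ι : Type) (C : Finset ι) (K : ι → ℤ) (x : ι → UnitAddCircle) (D : ℕ), Fam C K x →
    C.Nonempty → ∑ i ∈ C, |K i| ≤ D → (∀ i ∈ C, IsOfFinAddOrder (x i) ∧ x i ≠ 0) →
    ∃ C' : Finset ι, C' ⊆ C ∧ C'.Nonempty ∧ ∃ c : ι → UnitAddCircle, Blk D C' K c x

/-- **Dec.** The structure theorem: every relation is a union of blocks and a relation of bounded level.
*Uses:* `S_Core`, `S_Cop`, `S_BlkE`.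
*Proof.* Let `M = MM N`, `D = 2 ^ (N - 1)`. CLAIM for `s : Finset (Fin N)` with `RelOn s x`, by
induction on `s.card`: there are `b, u, c` with: `b i = none` for `i ∉ s`; `M • x i = 0` for `i ∈ s`,
`b i = none`; `RelOn {i ∈ s | b i = none} x`; `b i = some β` implies `β ∈ s`; and
`Blk D {i | b i = some β} u c x` for all `β`. (For `s = univ` this is the theorem.) If `M • x i = 0` for all
`i ∈ s`: `b = none`, `u = 0`, `c = 0` (`Blk` of the empty set is trivial). Otherwise apply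
`S_Core` to the type `{i // i ∈ s}` (`card ≤ N`), move the set to a subset `C ⊆ s` (`Finset.map` by
`Subtype.val`, `K` extended by `0`; `Fam` is preserved: the sums are over the image), and `S_BlkE`:
`C' ⊆ C` not empty, `c'`, `Blk D C' K c' x`. The last clause of `Blk` with the given `w` (`x_i = K_i w + c'_i ≠ 0`)
shows `RelOn C' x`. Hence `RelOn (s \ C') x`: let `t` be prime to the orders of the entries in `s \ C'`, `L` =
product of these orders, `P` = product of the orders of the entries in `C'`; `S_Cop`: `t' ≡ t` mod `L`, prime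
to `L * P`; `∑_{s \ C'} sw (t x_i) = ∑_{s \ C'} sw (t' x_i) = ∑_s - ∑_{C'} = 0`. Induction for `s \ C'` gives
`b', u', c''`. Choose `i_0 ∈ C'` and put `b i = some i_0`, `u i = K i`, `c i = c' i` on `C'`, and
`b', u', c''` outside. `{i | b i = some i_0} = C'` because `b'` has values in `none` and `some (s \ C')`. -/
def S_Dec : Prop :=
  ∀ (N : ℕ) (x : Fin N → UnitAddCircle), (∀ i, IsOfFinAddOrder (x i)) → (∀ i, x i ≠ 0) →
    RelOn univ x → Dec (MM N) (2 ^ (N - 1)) x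

/-! ## Gauss sums -/

/-- **Tr.** Transfer of an identity from one primitive root of unity to another.
*Uses:* nothing.
*Proof.* `Polynomial.cyclotomic_eq_minpoly : cyclotomic m ℤ = minpoly ℤ ζ` and
`minpoly.isIntegrallyClosed_dvd`: `cyclotomic m ℤ ∣ P`, `P = cyclotomic m ℤ * Q`; and
`aeval r (cyclotomic m ℤ) = 0` (`IsPrimitiveRoot.isRoot_cyclotomic`, `Polynomial.map_cyclotomic`,
`aeval_def`). -/
def S_Tr : Prop :=
  ∀ (m : ℕ) (P : Polynomial ℤ) (ζ : ℂ), 0 < m → IsPrimitiveRoot ζ m → Polynomial.aeval ζ P = 0 →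
    ∀ (R : Type) [CommRing R] [IsDomain R] (r : R), IsPrimitiveRoot r m → Polynomial.aeval r P = 0

/-- **Tei.** The Teichmüller character.
*Uses:* nothing.
*Proof.* For `x : (ZMod p)ˣ` Hensel's lemma (`hensels_lemma`, polynomial `X ^ (p - 1) - 1`, start
`(x : ZMod p).val`) gives `T x : ℤ_[p]` with `(T x) ^ (p - 1) = 1` and `toZMod (T x) = x` (this is done, in
almost the same form, in `Pool/Agent/Lib/FW/C/Tei.lean`: copy `exT`; `(p : ℤ_[p]) ∣ T - x.val`, and
`PadicInt.toZMod` kills `p`). UNIQUENESS: if `A ^ (p - 1) = 1 = B ^ (p - 1)` and `p ∣ A - B`, then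
`A ^ (p ^ n) = A`, `B ^ (p ^ n) = B` and `p ^ (n + 1) ∣ A ^ (p ^ n) - B ^ (p ^ n) = A - B` for all `n`
(`dvd_sub_pow_of_dvd_sub`), so `A = B`. Hence `T (x y) = T x T y` and `T 1 = 1`: a monoid homomorphism
`(ZMod p)ˣ →* ℤ_[p]ˣ` (`Units.mkOfMulEqOne` or `toHomUnits`), `MulChar.ofUnitHom`. For `x = 0`: both sides are
zero. -/
def S_Tei : Prop :=
  ∀ (p : ℕ) [Fact p.Prime], ∃ ω : MulChar (ZMod p) ℤ_[p],
    ∀ x : ZMod p, PadicInt.toZMod (ω x) = x

/-- **Chr.** Characters of `ZMod p` and the value at a generator `g`.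
*Uses:* nothing.
*Proof.* For `x ≠ 0` in `ZMod p` there is `e` with `x = g ^ e`, so `χ x = χ(g) ^ e`. (1) `χ ^ n = 1` iff
`χ(g) ^ n = 1` (`MulChar.ext`, `MulChar.pow_apply_coe`); so `orderOf χ = orderOf (χ g)`; and for `m > 0`
`IsPrimitiveRoot z m ↔ orderOf z = m` (`IsPrimitiveRoot.iff_orderOf`). (2) `r` is a unit of order dividing
`p - 1 =` order of `g`; the homomorphism `(ZMod p)ˣ →* Rˣ`, `g ^ e ↦ r ^ e`
(`monoidHomOfForallMemZpowers`: `hg : ∀ x, x ∈ zpowers g`, `orderOf r' ∣ orderOf g`, with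
`monoidHomOfForallMemZpowers_apply_gen`), `MulChar.ofUnitHom`. -/
def S_Chr : Prop :=
  ∀ (p : ℕ) [Fact p.Prime] (g : (ZMod p)ˣ), (∀ x : (ZMod p)ˣ, x ∈ Subgroup.zpowers g) →
    ∀ (R : Type) [CommRing R] [IsDomain R],
      (∀ (χ : MulChar (ZMod p) R) (m : ℕ), 0 < m →
        (orderOf χ = m ↔ IsPrimitiveRoot (χ (g : ZMod p)) m)) ∧
      ∀ r : R, r ^ (p - 1) = 1 → ∃ χ : MulChar (ZMod p) R, χ (g : ZMod p) = r

/-- **Gp.** The `m'`-th power and the absolute value of a Gauss sum.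
*Uses:* nothing.
*Proof.* `orderOf (χ ^ a) = m / m.gcd a` (`orderOf_pow`) is `≥ 2` because `m ∤ a`. `ψ` is primitive
(`AddChar.IsPrimitive` for a nontrivial character of a field: `AddChar.IsPrimitive.of_ne_one`). First
claim: `gaussSum_pow_eq_prod_jacobiSum`, `Fintype.card (ZMod p) = p` (`ZMod.card`), `(χ ^ a) ^ i = χ ^ (a * i)`
(`pow_mul`). Second claim: `gaussSum_mul_gaussSum_eq_card` (`gaussSum χ ψ * gaussSum χ⁻¹ ψ⁻¹ = card`) and
`star_gaussSum_eq` or by hand: the complex conjugate of `gaussSum χ ψ` is `gaussSum χ⁻¹ ψ⁻¹`; so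
`‖g‖ ^ 2 = g * conj g = p`. -/
def S_Gp : Prop :=
  ∀ (p m : ℕ) [Fact p.Prime] (χ : MulChar (ZMod p) ℂ) (ψ : AddChar (ZMod p) ℂ), 0 < m →
    orderOf χ = m → ψ ≠ 1 → ∀ a : ℕ, ¬ m ∣ a →
      gaussSum (χ ^ a) ψ ^ (m / m.gcd a) = GP m χ a ∧ ‖gaussSum (χ ^ a) ψ‖ ^ 2 = p

/-- **Pol.** `GP m χ a` is a polynomial in `χ(g)`, the same for all rings.
*Uses:* nothing.
*Proof.* Choose `e : (ZMod p)ˣ → ℕ` with `g ^ e x = x` (the group is finite: `mem_zpowers_iff_mem_range_orderOf`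
or `Submonoid.mem_powers`). For a unit `x`: `(χ ^ r) x = χ(x) ^ r = χ(g) ^ (r e(x))`
(`MulChar.pow_apply_coe`). In `jacobiSum φ φ' = ∑ x, φ x * φ' (1 - x)` only the `x ≠ 0, 1` count (a
character is zero at `0`, also the trivial one: `MulChar.map_zero`). So
`GP m χ a = aeval (χ g) (X ^ (a e(-1)) * C p * ∏_{i ∈ Ico 1 (m' - 1)} ∑_{x ≠ 0, 1} X ^ (a e(x) + a i e(1 - x)))`. -/
def S_Pol : Prop :=
  ∀ (p m a : ℕ) [Fact p.Prime] (g : (ZMod p)ˣ), (∀ x : (ZMod p)ˣ, x ∈ Subgroup.zpowers g) →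
    ∃ P : Polynomial ℤ, ∀ (R : Type) [CommRing R] (χ : MulChar (ZMod p) R),
      GP m χ a = Polynomial.aeval (χ (g : ZMod p)) P

/-- **JV.** The `p`-adic value of a Jacobi sum of powers of the Teichmüller character.
*Uses:* nothing.
*Proof.* `orderOf ω = p - 1` (`ω ^ n = 1` implies `x ^ n = 1` for all units `x` of `ZMod p`, and `(ZMod p)ˣ` is
cyclic). `toZMod (jacobiSum (ω ^ A) (ω ^ B)) = ∑ x : ZMod p, x ^ A * (1 - x) ^ B` (`A, B > 0`). Expand
`(1 - x) ^ B`: it is `∑_{j ≤ B} (-1) ^ j (B choose j) ∑_x x ^ (A + j)`, and for `n > 0` `∑_x x ^ n` is `-1` if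
`p - 1 ∣ n` and `0` otherwise (`FiniteField.sum_pow_lt_card_sub_one`, `FiniteField.sum_pow_units`). Here
`0 < A + j < 2 (p - 1)`. If `A + B < p - 1` the sum is zero. If `p - 1 ≤ A + B` it is
`± (B choose (p - 1 - A))`, not zero in `ZMod p` because `B < p`. (In `ZMod p` compare
`Pool/Agent/Lib/FW/A/AMem.lean`, `ASum.lean`.) An element of `ℤ_[p]` with nonzero image in `ZMod p` is a unit
(`PadicInt.isUnit_iff`, `PadicInt.norm_lt_one_iff_dvd`, kernel of `toZMod`): second claim. First claim: let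
`J' = jacobiSum (ω ^ (p - 1 - A)) (ω ^ (p - 1 - B))`; it is a unit by the second claim
(`2 (p - 1) - A - B ≥ p - 1`), `ω ^ (p - 1 - A) = (ω ^ A)⁻¹`, and `J * J' = p` by
`jacobiSum_mul_jacobiSum_inv` applied in the field `ℚ_[p]` (all three characters `ω ^ A`, `ω ^ B`, `ω ^ (A + B)` are
nontrivial; `MulChar.ringHomComp`, `jacobiSum_ringHomComp`, see `jac_mul` in
`Pool/Agent/Lib/FW/A/AJac.lean`). -/
def S_JV : Prop :=
  ∀ (p : ℕ) [Fact p.Prime] (ω : MulChar (ZMod p) ℤ_[p]), (∀ x : ZMod p, PadicInt.toZMod (ω x) = x) →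
    ∀ A B : ℕ, 0 < A → A < p - 1 → 0 < B → B < p - 1 →
      (A + B < p - 1 → ∃ u : ℤ_[p]ˣ, jacobiSum (ω ^ A) (ω ^ B) = p * u) ∧
      (p - 1 ≤ A + B → IsUnit (jacobiSum (ω ^ A) (ω ^ B)))

/-- **Cou.** Counting.
*Uses:* nothing.
*Proof.* `i ↦ A i % n` is a bijection of `{1, …, n - 1}` to itself (`A` prime to `n`). The `i` with
`A i % n < n - A` correspond to the values `1, …, n - A - 1`, so there are `n - A - 1` of them in
`{1, …, n - 1}`; `i = n - 1` is not one of them because `A (n - 1) % n = n - A`. So there are `n - A - 1` in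
`Ico 1 (n - 1)`. -/
def S_Cou : Prop :=
  ∀ n A : ℕ, A.Coprime n → 0 < A → A < n →
    #{i ∈ Ico 1 (n - 1) | A + A * i % n < n} + 1 = n - A

/-- **EV.** The `p`-adic value of `GP`.
*Uses:* `S_JV`, `S_Cou`.
*Proof.* `m > 0`, `k > 0` (`p ≥ 2`). `d = m.gcd a`, `m = m' d`, `a = a' d`, `A = t a' % m'`: `A` is prime to `m'`
(`t` is prime to `m`, `a'` to `m'`), `0 < A < m'` (`m' ≥ 2` because `m ∤ a`), `t a % m = d A`. `ω ^ (p - 1) = 1`, so
`(ω ^ (k t)) ^ a = ω ^ (k t a) = ω ^ (k (t a % m)) = ω ^ (k d A)` and for `1 ≤ i < m'`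
`(ω ^ (k t)) ^ (a i) = ω ^ (k (t a i % m)) = ω ^ (k d (A i % m'))`, with `0 < A i % m' < m'`. `k d m' = p - 1`. By
`S_JV` the factor `i` of the product is `p` times a unit if `A + A i % m' < m'` and a unit otherwise. The value
`(ω ^ …) (-1)` is a unit (`-1` is one). So `GP = unit * p ^ (1 + count) = unit * p ^ (m' - A)` by `S_Cou`, and
`(m' - A) d = m - t a % m`. -/
def S_EV : Prop :=
  ∀ (p m : ℕ) [Fact p.Prime] (ω : MulChar (ZMod p) ℤ_[p]), (∀ x : ZMod p, PadicInt.toZMod (ω x) = x) →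
    ∀ k t a : ℕ, m * k = p - 1 → t.Coprime m → ¬ m ∣ a →
      ∃ u : ℤ_[p]ˣ, GP m (ω ^ (k * t)) a ^ m.gcd a = p ^ (m - t * a % m) * u

/-- **TR.** If one product of Gauss sums is a root of unity times a power of `√p`, then Stickelberger's
relation holds.
*Uses:* `S_Tr`, `S_Tei`, `S_Chr`, `S_Gp`, `S_Pol`, `S_EV`.
*Proof.* `m > 0`; `v_i = (a i).val`, `m ∤ v_i`; `d_i = m.gcd v_i`. The `m`-th power of the hypothesis:
`∏ (GP m χ v_i ^ d_i) ^ (2 k) = p ^ (N k m)` (`S_Gp`, `(m / d_i) d_i = m`). Fix a generator `g` of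
`(ZMod p)ˣ` (`IsCyclic.exists_generator`) and the polynomials `P_i` of `S_Pol` for `v_i`. With `ζ = χ(g)`, a primitive
`m`-th root of unity (`S_Chr`), the polynomial `Q = ∏ (P_i ^ d_i) ^ (2 k) - C (p ^ (N k m))` has
`aeval ζ Q = 0`. Let `ω` be the Teichmüller character, `m k' = p - 1`, `χ' = ω ^ (k' t)`: `orderOf ω = p - 1`
(its values at `g` reduce to `g`), so `orderOf χ' = m` (`t` prime to `m`), `χ'(g)` is a primitive `m`-th root of
unity (`S_Chr`) and `aeval (χ' g) Q = 0` by `S_Tr`. With `S_Pol`, `S_EV`: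
`unit * p ^ (2 k ∑ (m - t v_i % m)) = p ^ (N k m)` in `ℤ_[p]`, hence (`p` is a prime element, not a unit)
`2 k ∑ (m - t v_i % m) = N k m`, i.e. `2 ∑ (t v_i % m) = N m`. -/
def S_TR : Prop :=
  ∀ (m N : ℕ) [NeZero m] (a : Fin N → ZMod m), (∀ i, a i ≠ 0) →
    ∀ (p : ℕ) [Fact p.Prime], m ∣ p - 1 → ∀ χ : MulChar (ZMod p) ℂ, orderOf χ = m →
      ∀ ψ : AddChar (ZMod p) ℂ, ψ ≠ 1 → ∀ k : ℕ, 0 < k →
        (∏ i, gaussSum (χ ^ (a i).val) ψ) ^ (2 * k) = (p : ℂ) ^ (N * k) →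
          ∀ t : ℕ, t.Coprime m → 2 * ∑ i, (t * (a i).val % m) = N * m

/-- **Div.** A polynomial whose values at all primitive `m`-th roots of unity of `ℤ_[p]` are divisible by
`p ^ n` is `p ^ n P'` at the primitive roots of unity in `ℂ`.
*Uses:* `S_Tei`.
*Proof.* Induction on `n`, `n = 0`: `P' = P`. Step: let all values be divisible by `p ^ (n + 1)`. Every primitive
`m`-th root `ρ` of unity in `ZMod p` is `toZMod (ω ρ)`, and `ω ρ` is a primitive `m`-th root of unity in `ℤ_[p]` (`ω`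
is multiplicative and injective on units). So `P` mod `p` vanishes at all primitive `m`-th roots of unity of
`ZMod p`. As `m ∣ p - 1`, `ZMod p` contains one, so `cyclotomic m (ZMod p) = ∏ (X - ρ)`
(`Polynomial.cyclotomic_eq_prod_X_sub_primitiveRoots`) divides `P` mod `p` (coprime linear factors:
`Finset.prod_dvd_of_coprime`, or `Multiset.prod_X_sub_C_dvd_iff_le_roots`): `P mod p = cyclotomic * Q̄`; lift
`Q̄` to `Q ∈ ℤ[X]` (`Polynomial.map_surjective`); all coefficients of `P - cyclotomic m ℤ * Q` are divisible by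
`p`, so `P = cyclotomic m ℤ * Q + C p * P_1` (`Polynomial.C_dvd_iff_dvd_coeff`). The value of `P` at a primitive
root of unity of `ℤ_[p]` or `ℂ` is `p` times that of `P_1`; `p ^ n` divides the values of `P_1` in `ℤ_[p]` (domain);
induction for `P_1`. -/
def S_Div : Prop :=
  ∀ (p m n : ℕ) [Fact p.Prime], 0 < m → m ∣ p - 1 → ∀ P : Polynomial ℤ,
    (∀ r : ℤ_[p], IsPrimitiveRoot r m → (p : ℤ_[p]) ^ n ∣ Polynomial.aeval r P) →
    ∃ P' : Polynomial ℤ, ∀ ζ : ℂ, IsPrimitiveRoot ζ m →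
      Polynomial.aeval ζ P = (p : ℂ) ^ n * Polynomial.aeval ζ P'

/-- **Kro.** Kronecker's theorem in the cyclotomic field.
*Uses:* nothing.
*Proof.* `K = CyclotomicField m ℚ`, `z = IsCyclotomicExtension.zeta m ℚ K`, `α = aeval z P`, an algebraic
integer. For every embedding `φ : K →+* ℂ` the element `φ z` is a primitive `m`-th root of unity and
`φ α = aeval (φ z) P` has absolute value `1`. `NumberField.Embeddings.pow_eq_one_of_norm_eq_one` gives `n > 0` with
`α ^ n = 1`. The given `ζ` is `φ z` for some embedding `φ` (`IsPrimitiveRoot.powerBasis`, or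
`IsCyclotomicExtension.Rat…`; or directly: `φ z = ζ' ` for one embedding, `ζ = ζ' ^ t`, and `X ^ n` transfer:
`cyclotomic m ℤ` divides `P ^ n - 1` because `cyclotomic m ℤ = minpoly ℤ z`, so `(aeval ζ P) ^ n = 1`). -/
def S_Kro : Prop :=
  ∀ (m : ℕ) (P : Polynomial ℤ), 0 < m →
    (∀ ζ : ℂ, IsPrimitiveRoot ζ m → ‖Polynomial.aeval ζ P‖ = 1) →
    ∀ ζ : ℂ, IsPrimitiveRoot ζ m → ∃ k : ℕ, 0 < k ∧ Polynomial.aeval ζ P ^ k = 1

/-- **RT.** Stickelberger's relation implies that the products of Gauss sums are roots of unity times a power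
of `√p`.
*Uses:* `S_Tei`, `S_Chr`, `S_Gp`, `S_Pol`, `S_EV`, `S_Div`, `S_Kro`.
*Proof.* Notation of the proof of `S_TR`: `v_i`, `d_i`, `g`, `P_i`. `Q = ∏ (P_i ^ d_i) ^ 2`. Let `r ∈ ℤ_[p]` be a
primitive `m`-th root of unity. `m k' = p - 1`, `ω(g)` is a primitive `(p - 1)`-th root of unity, so
`r = ω(g) ^ (k' t)` with `t` prime to `m` (`ω(g) ^ k'` is a primitive `m`-th root of unity;
`IsPrimitiveRoot.isPrimitiveRoot_iff`), so `r = χ'(g)` with `χ' = ω ^ (k' t)`, and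
`aeval r Q = ∏ (GP m χ' v_i ^ d_i) ^ 2 = unit * p ^ (2 ∑ (m - t v_i % m)) = unit * p ^ (N m)` by the
hypothesis. `S_Div` (`n = N m`): `aeval ζ Q = p ^ (N m) * aeval ζ P'` for all primitive `ζ ∈ ℂ`. Such a `ζ` is `χ''(g)`
for a character `χ''` of order `m` (`S_Chr`), and
`aeval ζ Q = ∏ (GP m χ'' v_i ^ d_i) ^ 2 = ∏ g(χ''^{v_i}) ^ (2 m)` has the absolute value `p ^ (N m)` (`S_Gp`).
So `‖aeval ζ P'‖ = 1`, and `S_Kro`: `(aeval ζ P') ^ k = 1` for `ζ = χ(g)`. Hence
`(∏ g(χ^{v_i})) ^ (2 m k) = (p ^ (N m)) ^ k`; the number `m k` is as required. -/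
def S_RT : Prop :=
  ∀ (m N : ℕ) [NeZero m] (a : Fin N → ZMod m), (∀ i, a i ≠ 0) →
    (∀ t : ℕ, t.Coprime m → 2 * ∑ i, (t * (a i).val % m) = N * m) →
    ∀ (p : ℕ) [Fact p.Prime], m ∣ p - 1 → ∀ χ : MulChar (ZMod p) ℂ, orderOf χ = m →
      ∀ ψ : AddChar (ZMod p) ℂ, ψ ≠ 1 →
        ∃ k : ℕ, 0 < k ∧ (∏ i, gaussSum (χ ^ (a i).val) ψ) ^ (2 * k) = (p : ℂ) ^ (N * k)

/-- **IT.** Tate characters are the relations with sum zero.
*Uses:* `S_RM`, `S_Chr`, `S_TR`, `S_RT`.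
*Proof.* (←) `S_RM`, `S_RT`. (→) There is a prime `p ≡ 1` mod `m` (`Nat.exists_prime_gt_modEq_one`), a
generator `g`, the root of unity `ζ = exp(2 π i / m)` (`Complex.isPrimitiveRoot_exp`), `ζ ^ (p - 1) = 1`, so
`S_Chr` gives `χ` of order `m`; and a nontrivial `ψ` (for example `ZMod.stdAddChar`, injective; or
`AddChar.zmodChar`). The third part of `IsTate` for these, with `S_TR` and `S_RM`. -/
def S_IT : Prop :=
  ∀ (m N : ℕ) [NeZero m] (a : Fin N → ZMod m),
    (IsTate m a ↔ (∀ i, a i ≠ 0) ∧ ∑ i, a i = 0 ∧ RelOn univ (fun i => ZMod.toAddCircle (a i)))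

/-- **PT.** Sums of pairs are Tate characters.
*Uses:* `S_RT`.
*Proof.* `∑ a_i = 0`: `Finset.sum_involution` with `σ`. For `t` prime to `m` let `f i = t * (a i).val % m`; for
every `i`: `f i + f (σ i) = m`, because `a (σ i) = - a i`, `m ∣ (a i).val + (a (σ i)).val`, and `f i ≠ 0`
(`t` is prime to `m` and `a i ≠ 0`). So `2 ∑ f i = ∑ f i + ∑ f (σ i) = N m` (`Equiv.sum_comp`). Third
part: `S_RT`. -/
def S_PT : Prop :=
  ∀ (m N : ℕ) [NeZero m] (a : Fin N → ZMod m), (∀ i, a i ≠ 0) → PairSum a → IsTate m a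

/-! ## Counting -/

/-- **BlkS.** Blocks do not have one element, and a block with two elements is a pair.
*Uses:* `S_Sw` (2), (4).
*Proof.* Let `s = {i}`. `c_i` has finite order (`(Icc 1 D).lcm id ≠ 0`). By divisibility there is `w` with
`u_i w = ↑(1/3) - c_i`, and `w` has finite order (`u_i ≠ 0`). So `u_i w + c_i = ↑(1/3) ≠ 0`, and the relation
for `t = 1` says `sw ↑(1/3) = 0`, but it is `-1/6`. Let `s.card = 2`: the last clause of `Blk` for the `w` with
`x_i = u_i w + c_i` (which are not zero) and `t = 1`: `∑_{i ∈ s} sw (x_i) = 0`, so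
`∑_{i ∈ s} x_i = ↑(2 / 2) = 0`. -/
def S_BlkS : Prop :=
  ∀ (ι : Type) (D : ℕ) (s : Finset ι) (u : ι → ℤ) (c x : ι → UnitAddCircle), (∀ i ∈ s, x i ≠ 0) →
    Blk D s u c x → s.card ≠ 1 ∧ (s.card = 2 → ∑ i ∈ s, x i = 0)

/-- **PS.** If the blocks do not have one element and those with two elements are pairs, then there are
less than `N / 2` blocks or everything is a sum of pairs.
*Uses:* nothing.
*Proof.* Let `B = {β | ∃ i, b i = some β}` and `n_β = #{i | b i = some β}`. `∑_{β ∈ B} n_β = N - #{i | b i = none}`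
(`Finset.card_eq_sum_card_fiberwise`), `n_β ≥ 2` for `β ∈ B`. If not `2 #B < N`, then all `n_β = 2` for `β ∈ B`
and no `i` has `b i = none`. Define `σ i` = the other element of the block of `i`. It is an involution without
fixed points, and `a i + a (σ i) = 0`. -/
def S_PS : Prop :=
  ∀ (N m : ℕ) (a : Fin N → ZMod m) (b : Fin N → Option (Fin N)),
    (∀ β : Fin N, #{i | b i = some β} ≠ 1 ∧
      (#{i | b i = some β} = 2 → ∑ i with b i = some β, a i = 0)) →
    2 * #{β : Fin N | ∃ i, b i = some β} < N ∨ PairSum a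

/-- **CntF.** The number of tuples with given data `b, u, c`.
*Uses:* nothing.
*Proof.* `C = (M * (D + 1)) ^ N`. For `β ∈ B = {β | ∃ i, b i = some β}` choose `i_β` with `b i_β = some β`. For `a` in the set choose `w_β(a)` for `β ∈ B`. The map
`a ↦ ((a i)_{b i = none}, (w_β(a))_{β ∈ B})` is injective (`toAddCircle` is injective:
`ZMod.toAddCircle_injective`). The first component has at most `M` values for each `i` (the number of
`j : ZMod m` with `M • toAddCircle j = 0` is at most the number of `y` in the circle with `M • y = 0`, which is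
`M`: `AddCircle.card_torsion_le_of_isSMulRegular`, or by hand: `y = ↑(j / M)`, `0 ≤ j < M`), the component `β` at most
`m D` values: `u_{i_β} w_β = toAddCircle (a i_β) - c_{i_β}` is one of `m` elements, and `u w = z` has at most
`|u| ≤ D` solutions `w` (`u ≠ 0`). So the number is at most `M ^ N (m D) ^ #B ≤ C m ^ #B`. -/
def S_CntF : Prop :=
  ∀ N M D : ℕ, 0 < M → ∃ C : ℕ, ∀ (b : Fin N → Option (Fin N)) (u : Fin N → ℤ)
    (c : Fin N → UnitAddCircle) (m : ℕ) [NeZero m],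
    (∀ i, b i ≠ none → u i ≠ 0 ∧ |u i| ≤ D) →
    {a : Fin N → ZMod m | (∀ i, b i = none → M • ZMod.toAddCircle (a i) = 0) ∧
      ∀ β : Fin N, ∃ w : UnitAddCircle, ∀ i, b i = some β →
        ZMod.toAddCircle (a i) = u i • w + c i}.ncard ≤ C * m ^ #{β : Fin N | ∃ i, b i = some β}

/-- **Cnt.** The number of the tuples which are not sums of pairs.
*Uses:* `S_BlkS`, `S_PS`, `S_CntF`.
*Proof.* `N = 2 r`, `M = MM N`, `D = 2 ^ (N - 1)`, `L = (Icc 1 D).lcm id`. A tuple `a` of the set has data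
`(b, u, c)` (`Dec`); we may replace `u i`, `c i` by `0` where `b i = none`. The set `𝒮` of the triples `(b, u, c)` with
`|u i| ≤ D` and `L • c i = 0` is finite and does not depend on `m` (the circle has finitely many elements killed by
`L`: `AddCircle.finite_torsion`, or `y = ↑(j / L)`). `S_BlkS` and `S_PS` (`toAddCircle` is an injective
homomorphism, so `∑ x_i = 0` gives `∑ a_i = 0`; `a` is not a sum of pairs): `2 #B < 2 r`, so `#B ≤ r - 1`. With
`S_CntF` the number of the `a` with data `(b, u, c)` is at most `C m ^ #B ≤ C m ^ (r - 1)` (`m ≥ 1`). Sum over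
`𝒮` (`Set.ncard` of a finite union). -/
def S_Cnt : Prop :=
  ∀ r : ℕ, 0 < r → ∃ C : ℕ, ∀ (m : ℕ) [NeZero m],
    {a : Fin (2 * r) → ZMod m | (∀ i, a i ≠ 0) ∧
      Dec (MM (2 * r)) (2 ^ (2 * r - 1)) (fun i => ZMod.toAddCircle (a i)) ∧
      ¬ PairSum a}.ncard ≤ C * m ^ (r - 1)

/-- **Mat.** The number of involutions without fixed points.
*Uses:* nothing.
*Proof.* These are the permutations of cycle type `{2, …, 2}` (`r` times): `Equiv.Perm.card_of_cycleType`
gives `(2 r)! / (0! * 2 ^ r * r!)`, and this is `(2 r - 1)!!` (`Nat.factorial_eq_mul_doubleFactorial`,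
`Nat.doubleFactorial_two_mul`). Or by induction on `r`: the partner of the last element can be chosen in
`2 r - 1` ways. -/
def S_Mat : Prop :=
  ∀ r : ℕ, {σ : Equiv.Perm (Fin (2 * r)) | ∀ i, σ (σ i) = i ∧ σ i ≠ i}.ncard =
    Nat.doubleFactorial (2 * r - 1)

/-- **Fix.** The number of tuples of pairs for a given matching.
*Uses:* nothing.
*Proof.* Let `R` be the set of the `i` with `i < σ i`; it has `r` elements (`σ` exchanges `R` and its
complement). The map `a ↦ (a i)_{i ∈ R}` is a bijection from the set to the functions `R → {y : ZMod m // y ≠ 0}`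
(inverse: `a i = y_i` for `i ∈ R`, `a i = - y_{σ i}` otherwise), and `ZMod m` has `m - 1` nonzero elements. -/
def S_Fix : Prop :=
  ∀ (r m : ℕ) [NeZero m] (σ : Equiv.Perm (Fin (2 * r))), (∀ i, σ (σ i) = i ∧ σ i ≠ i) →
    {a : Fin (2 * r) → ZMod m | (∀ i, a i ≠ 0) ∧ ∀ i, a (σ i) = -a i}.ncard = (m - 1) ^ r

/-- **Int.** The number of tuples which are sums of pairs for two matchings.
*Uses:* nothing.
*Proof.* There is `i_0` with `τ i_0 ≠ σ i_0`; put `j_0 = τ i_0`, so `j_0 ∉ {i_0, σ i_0}`, and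
`a j_0 = - a i_0`. Let `R = {i | i < σ i}` (`r` elements), and for any `i` let `ρ(i) ∈ R` be `i` or `σ i`; then
`a i = ± a (ρ i)`. `ρ(i_0) ≠ ρ(j_0)`. A tuple of the set is determined by its values on `R \ {ρ(j_0)}`, because
`a (ρ j_0) = ± a j_0 = ∓ a i_0 = ± a (ρ i_0)` (fixed signs). So there are at most `m ^ (r - 1)`. -/
def S_Int : Prop :=
  ∀ (r m : ℕ) [NeZero m] (σ τ : Equiv.Perm (Fin (2 * r))), (∀ i, σ (σ i) = i ∧ σ i ≠ i) →
    (∀ i, τ (τ i) = i ∧ τ i ≠ i) → σ ≠ τ →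
    {a : Fin (2 * r) → ZMod m | ∀ i, a (σ i) = -a i ∧ a (τ i) = -a i}.ncard ≤ m ^ (r - 1)

/-- **Tot.** The number of sums of pairs.
*Uses:* `S_Mat`, `S_Fix`, `S_Int`.
*Proof.* Let `𝒮` be the set of the involutions without fixed points, `K = (2 r - 1)!!` their number, and `A_σ` the
set of `S_Fix`. The set is `⋃_{σ ∈ 𝒮} A_σ`; its number is `≤ K (m - 1) ^ r ≤ K m ^ r` and
`≥ ∑ #A_σ - ∑_{σ ≠ τ} #(A_σ ∩ A_τ) ≥ K (m - 1) ^ r - K ^ 2 m ^ (r - 1)` (for a finite family of finite sets: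
`∑_σ #A_σ = ∑_{a ∈ ⋃} #{σ | a ∈ A_σ}` and `n ≤ 1 + n (n - 1)`). Bernoulli: `m ^ r - (m - 1) ^ r ≤ r m ^ (r - 1)`.
`C = K r + K ^ 2`. -/
def S_TotB : Prop :=
  ∀ r : ℕ, 0 < r → ∃ C : ℕ, ∀ (m : ℕ) [NeZero m],
    |({a : Fin (2 * r) → ZMod m | (∀ i, a i ≠ 0) ∧ PairSum a}.ncard : ℤ) -
      Nat.doubleFactorial (2 * r - 1) * m ^ r| ≤ C * m ^ (r - 1)

/-! ## The final theorem -/

/-- **Red.** Modulo `HD` every Tate character of length `N` is a Tate character of length `≤ N` and of level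
`MM N`.
*Uses:* `S_Sw` (2), (4), `S_IT`.
*Proof.* Let `x_i = toAddCircle (a i)`, and `b, u, c` the data of `Dec`, `Z = {i | b i = none}`. The sum of the
`[x_i]` over the blocks is in `HD` (last clause of `Blk` with the `w` with `x_i = u_i w + c_i`, `x_i ≠ 0`;
`∑_{i ∉ Z} = ∑_β ∑_{b i = some β}`: `Finset.sum_fiberwise`). For `i ∈ Z`: `MM N • x_i = 0`, so
`x_i = toAddCircle (y_i)` with `y_i : ZMod (MM N)`, `y_i ≠ 0` (`y = j` if `x_i = ↑(j / MM N)`). The relation with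
`t = 1` and `S_Sw` (4): `∑_Z x_i = ↑(#Z / 2)`. If `#Z` is even take `N' = #Z` and `a' = y` (with an enumeration of
`Z`, `Finset.equivFin`): `∑ a' = 0` (`toAddCircle` is injective), and `IsTate (MM N) a'` by `S_IT`. If `#Z` is odd: the relation of `a`
(`S_IT`) with `t = 1` and `∑ x_i = 0` give `↑(N / 2) = 0`, so `N` is even, `N ≥ 2`, `#Z + 1 ≤ N`; `MM N` is even
(`2 ≤ (32 N) ^ (2 N)`, `Finset.dvd_lcm`); put `h = MM N / 2 : ZMod (MM N)`, `toAddCircle h = ↑(1/2)`. Take `N' = #Z + 1`,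
`a' = (y, h)`. The sum is zero; the relation: for `t` prime to the orders of the entries, `t` is odd (the order of
`↑(1/2)` is `2`) and `sw (t • ↑(1/2)) = sw ↑(1/2) = 0`. And `[↑(1/2)] ∈ HD`: the generator of the second kind with
`n = 2`, `y = ↑(1/4)` is `[1/4] + [3/4] - [1/2]`, and `[1/4] + [-1/4] ∈ HD`, `-1/4 = 3/4`. -/
def S_Red : Prop :=
  ∀ (m N : ℕ) [NeZero m] (a : Fin N → ZMod m), IsTate m a →
    Dec (MM N) (2 ^ (N - 1)) (fun i => ZMod.toAddCircle (a i)) →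
    ∃ (N' : ℕ) (a' : Fin N' → ZMod (MM N)), N' ≤ N ∧ IsTate (MM N) a' ∧
      ∑ i, Finsupp.single (ZMod.toAddCircle (a i)) (1 : ℤ) -
        ∑ i, Finsupp.single (ZMod.toAddCircle (a' i)) (1 : ℤ) ∈ HD

/-- **Final.** THEOREM FE.
*Uses:* `S_Dec`, `S_TR`, `S_RM`, `S_IT`, `S_PT`, `S_Cnt`, `S_TotB`, `S_Red`.
*Proof.* (1) `S_IT`. (2) `S_TR`, `S_RM`. (3) `S_IT`, `S_Dec` (the entries have finite order, they are not zero because
`toAddCircle` is injective). (4) (3), `S_Red`. (5) `IsTate m a ∧ ¬ PairSum a` implies the conditions of `S_Cnt`, by (3)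
and `S_IT`: first bound. The set of Tate characters is the disjoint union of those which are not sums of pairs and
the sums of pairs with nonzero entries (`S_PT`): `S_TotB`; the constant is the sum of the two constants. -/
def S_Final : Prop :=
  (∀ (m N : ℕ) [NeZero m] (a : Fin N → ZMod m),
    (IsTate m a ↔ (∀ i, a i ≠ 0) ∧ ∑ i, a i = 0 ∧ RelOn univ (fun i => ZMod.toAddCircle (a i)))) ∧
  (∀ (m N : ℕ) [NeZero m] (a : Fin N → ZMod m), (∀ i, a i ≠ 0) → ∑ i, a i = 0 →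
    ∀ (p : ℕ) [Fact p.Prime], m ∣ p - 1 → ∀ χ : MulChar (ZMod p) ℂ, orderOf χ = m →
      ∀ ψ : AddChar (ZMod p) ℂ, ψ ≠ 1 → ∀ k : ℕ, 0 < k →
        (∏ i, gaussSum (χ ^ (a i).val) ψ) ^ (2 * k) = (p : ℂ) ^ (N * k) → IsTate m a) ∧
  (∀ (m N : ℕ) [NeZero m] (a : Fin N → ZMod m), IsTate m a →
    Dec (MM N) (2 ^ (N - 1)) (fun i => ZMod.toAddCircle (a i))) ∧
  (∀ (m N : ℕ) [NeZero m] (a : Fin N → ZMod m), IsTate m a →
    ∃ (N' : ℕ) (a' : Fin N' → ZMod (MM N)), N' ≤ N ∧ IsTate (MM N) a' ∧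
      ∑ i, Finsupp.single (ZMod.toAddCircle (a i)) (1 : ℤ) -
        ∑ i, Finsupp.single (ZMod.toAddCircle (a' i)) (1 : ℤ) ∈ HD) ∧
  ∀ r : ℕ, 0 < r → ∃ C : ℕ, ∀ (m : ℕ) [NeZero m],
    {a : Fin (2 * r) → ZMod m | IsTate m a ∧ ¬ PairSum a}.ncard ≤ C * m ^ (r - 1) ∧
    |({a : Fin (2 * r) → ZMod m | IsTate m a}.ncard : ℤ) -
      Nat.doubleFactorial (2 * r - 1) * m ^ r| ≤ C * m ^ (r - 1)

end Pool.Agent.FC
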