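import Pool.Agent.Lib.MP_640417_ag.FC.Defs
import Pool.Agent.Lib.MP_640417_ag.FC.CoreDefs

/-!
# FE: the core lemma (effective structure theorem for the relations `Rel`)

Author of this file: helper15. Complete proof: note 3948. Every statement is a `def S_X : Prop`; the
task for `S_X` is a module `Pool/Agent/Lib/MP_640417_ag/FC/Core/X.lean` which contains
`theorem t_X : S_X` (namespace `Pool.Agent.FC`). Tasks may import the Spec and prove their statement
from Mathlib alone unless the docstring says that other `S_Y` are used; then the theorem is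
`theorem t_X (hY : S_Y) : S_X`.

`e(x) = ee x`, `cf n x V c = (1/n) * sum over s < n of sw (x + s V) e(-s c)`.
-/

noncomputable section

open Finset

open scoped Classical

namespace Pool.Agent.FC

/-- The Fourier coefficient at the frequency `c` of `s ↦ sw (x + s V)` on `Z/n`. -/
def cf (n : ℕ) (x V c : UnitAddCircle) : ℂ :=
  (∑ s ∈ range n, (sw (x + s • V) : ℂ) * ee (-(s • c))) / n

/-- (25 lines) `sw` takes values in `[-1/2, 1/2)`. PROOF. `AddCircle.equivIco` has values in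
`Set.Ico 0 (0 + 1)`. -/
def S_SwAbs : Prop := ∀ x : UnitAddCircle, |sw x| ≤ 1 / 2

/-- (50 lines) The sawtooth on a coset of the `n`-torsion. PROOF. Let `y ∈ [0,1)` be the
representative of `x`, `j = ⌊n y⌋`, `z = y - j / n ∈ [0, 1/n)`. Then `x = z + j/n` in the circle and for
`r < n` the element `z + r/n` has the representative `z + r/n ∈ [0,1)`, so `sw = z + r/n - 1/2`. -/
def S_SawCoset : Prop := ∀ (n : ℕ) (_ : 0 < n) (x : UnitAddCircle),
  ∃ (z : ℝ) (j : ℕ), 0 ≤ z ∧ z < 1 / n ∧ j < n ∧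
    x = ((z + (j : ℝ) / n : ℝ) : UnitAddCircle) ∧
    ∀ r : ℕ, r < n → sw ((z + (r : ℝ) / n : ℝ) : UnitAddCircle) = z + (r : ℝ) / n - 1 / 2

/-- (30 lines) `sum over r < n of r w^r = n / (w - 1)` if `w^n = 1`, `w ≠ 1`. PROOF. Multiply by
`w - 1`: telescoping, `sum r (w^(r+1) - w^r) = n w^n - sum over r < n of w^(r+1) = n - 0`. Or induction
on `k` for the sum over `r < k`. -/
def S_GeomDer : Prop := ∀ (n : ℕ) (w : ℂ), w ^ n = 1 → w ≠ 1 →
  ∑ r ∈ range n, (r : ℂ) * w ^ r = n / (w - 1)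

/-- (50 lines) Reindexing of the multiples of an element of order `n` of the circle. PROOF. The map
`s ↦ s V` is injective on `range n` with values in the set of `y` with `n y = 0`, which is the image of
`r ↦ r/n` on `range n`, also injective; both images have `n` elements (Mathlib:
`AddCircle.addOrderOf_eq_pos_iff`, `AddCircle.nsmul_eq_zero_iff`, or: `V = (k/n)` with `k` prime
to `n` and `s ↦ s k mod n` is a permutation of `range n`, and `F` depends only on `s k mod n`). -/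
def S_Reindex : Prop := ∀ (n : ℕ) (_ : 0 < n) (V : UnitAddCircle) (_ : addOrderOf V = n)
  (F : UnitAddCircle → ℂ),
  ∑ s ∈ range n, F (s • V) = ∑ r ∈ range n, F (((r : ℝ) / n : ℝ) : UnitAddCircle)

/-- (80 lines) Exact value of the coefficient at `k V`. Uses `S_SawCoset`, `S_GeomDer`,
`S_Reindex`. PROOF. By `S_Reindex` (with `F y = sw (x + y) e(-(k y))`; note
`s • (k • V) = k • (s • V)`) the sum is over `y = r/n`. With `x = z + j/n` of `S_SawCoset` and the shift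
`r → r - j mod n` (again a permutation of `range n`; or use `S_Reindex`-like periodicity: the summand
depends only on `r mod n`) it is `sum over r < n of (z + r/n - 1/2) e(-k (r - j)/n)
= e(k j/n) * sum (z + r/n - 1/2) w^r` with `w = e(-k/n) ≠ 1` because `n` does not divide `k`. The
constants give `0` (`sum w^r = 0`), `S_GeomDer` gives `(1/n) * n/(w-1)`. -/
def S_CoefExact : Prop := ∀ (n : ℕ) (_ : 0 < n) (V x : UnitAddCircle) (_ : addOrderOf V = n)
  (k : ℤ) (_ : ¬ (n : ℤ) ∣ k),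
  ∃ z : ℝ, 0 ≤ z ∧ z < 1 / n ∧ cf n x V (k • V) =
    ee (k • (x - (z : UnitAddCircle))) / (n * (ee ((-(k : ℝ) / n : ℝ) : UnitAddCircle) - 1))

/-- (60 lines) The elementary estimate. Put `p = 2 pi k / n`, so `0 < |p| ≤ pi`, and
`0 ≤ b < 1`. PROOF. `exp(-i p b)/(exp(-i p) - 1) - i/p = (p exp(-i p b) - i (exp(-i p) - 1)) / (p (exp(-i p) - 1))`.
Numerator `= p (exp(-i p b) - 1) - i (exp(-i p) - 1 + i p)`, of absolute value at most
`p^2 b + p^2/2 ≤ (3/2) p^2` (`‖exp(i t) - 1‖ ≤ |t|`: Mathlib `Real.norm_exp_I_mul_ofReal_sub_one_le`,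
`‖exp(i t) - 1 - i t‖ ≤ t^2/2`: integrate, or by real and imaginary part `1 - cos t ≤ t^2/2`,
`|t - sin t| ≤ |t|^3/6`, hmm: simplest is `norm_exp_sub_one_sub_id_le`-like only for `‖x‖ ≤ 1`; so use
`‖exp(i t) - 1 - i t‖ = ‖∫_0^t i (exp(i s) - 1) ds‖ ≤ ∫_0^|t| s ds`). Denominator:
`‖exp(-i p) - 1‖ = 2 |sin (p/2)| ≥ (2/pi) |p|` (Mathlib `Real.mul_le_sin`, or `Real.two_div_pi_mul_le`).
Quotient `≤ (3/2) (pi/2) ≤ 5/2`. -/
def S_Est : Prop := ∀ (p b : ℝ), p ≠ 0 → |p| ≤ Real.pi → 0 ≤ b → b < 1 →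
  ‖Complex.exp (-(p * b : ℝ) * Complex.I) / (Complex.exp (-(p : ℝ) * Complex.I) - 1)
    - Complex.I / (p : ℂ)‖ ≤ 5 / 2 ∧
  2 / Real.pi * |p| ≤ ‖Complex.exp (-(p : ℝ) * Complex.I) - 1‖

/-- (60 lines) Change of the period. PROOF. The summand `f s = sw (x + s V) e(-s c)` satisfies
`f (s + d) = e(-d c) f s` with `d = addOrderOf V` (a divisor of `n`, `n V = 0`). So with `n = d q` the
sum over `range n` is `(sum over j < q of e(-d c)^j) * (sum over s < d)`. If `d c = 0` the first factor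
is `q`; otherwise it is `0`, because `e(-d c) ≠ 1` and its `q`-th power is `e(-n c) = 1`. -/
def S_Period : Prop := ∀ (n : ℕ) (x V c : UnitAddCircle), 0 < n → n • V = 0 → n • c = 0 →
  (addOrderOf V • c = 0 → cf n x V c = cf (addOrderOf V) x V c) ∧
  (addOrderOf V • c ≠ 0 → cf n x V c = 0)

/-- (60 lines) A torsion element killed by the order of `V` is a multiple `k V` with `|k|` at most half
of the order. PROOF. `d = addOrderOf V > 0`, `V = a/d` with `a` prime to `d`, `c = b/d` (Mathlib: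
`AddCircle.addOrderOf_eq_pos_iff`, `AddCircle.nsmul_eq_zero_iff`); the elements `0, V, .., (d-1) V`
are the `d` solutions of `d y = 0`, so `c = k V` with `0 ≤ k < d`; take `k` or `k - d`. -/
def S_Least : Prop := ∀ (V c : UnitAddCircle), IsOfFinAddOrder V → addOrderOf V • c = 0 →
  ∃ k : ℤ, k • V = c ∧ 2 * |k| ≤ addOrderOf V

/-- (60 lines) Upper bound of a coefficient. Uses `S_CoefExact`, `S_Est`, `S_Period`, `S_Least`.
PROOF. If `d c ≠ 0`, `d = addOrderOf V`, the coefficient is `0` (`S_Period`). Otherwise `c = k V`,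
`2|k| ≤ d` (`S_Least`), `k ≠ 0` as `c ≠ 0` and `d` does not divide `k`; by hypothesis `R ≤ |k|`.
`S_Period` reduces to `n = d`, `S_CoefExact`: absolute value `1/(d ‖e(-k/d) - 1‖)`, and by `S_Est` with
`p = 2 pi k/d`: `‖e(-k/d) - 1‖ ≥ (2/pi)(2 pi |k|/d) = 4|k|/d`. -/
def S_Far : Prop := ∀ (n : ℕ) (x V c : UnitAddCircle) (R : ℝ), 0 < n → n • V = 0 → n • c = 0 →
  c ≠ 0 → 0 < R → (∀ k : ℤ, k • V = c → R ≤ |(k : ℝ)|) → ‖cf n x V c‖ ≤ 1 / (4 * R)

/-- (60 lines) Main term of a coefficient. Uses `S_CoefExact`, `S_Est`, `S_Period`. PROOF. With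
`d = addOrderOf V`: `d (k V) = 0`, so `cf n = cf d`; `d` does not divide `k` (`0 < 2|k| ≤ d`; if
`d | k` then `|k| ≥ d`). `S_CoefExact`, `z = b/d` with `0 ≤ b < 1`, `p = 2 pi k/d`, `|p| ≤ pi`:
`cf d = e(k x) exp(-i p b) / (d (exp(-i p) - 1))` and the main term is `e(k x) (i/p) / d`. Then
`S_Est`. -/
def S_Near : Prop := ∀ (n : ℕ) (x V : UnitAddCircle) (k : ℤ), 0 < n → n • V = 0 → k ≠ 0 →
  2 * |k| ≤ addOrderOf V →
  ‖cf n x V (k • V) - Complex.I * ee (k • x) / (2 * Real.pi * k)‖ ≤ 5 / (2 * addOrderOf V)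

/-- The number of bad `s < n` for the progression `1 + e s`. -/
def bad {ι : Type} [Fintype ι] (x : ι → UnitAddCircle) (e n : ℕ) : ℕ :=
  ((range n).filter fun s => ¬ ∀ i, (1 + e * s).Coprime (addOrderOf (x i))).card

/-- (60 lines) The sum of all coefficients is small. Uses `S_SwAbs`. PROOF. The sum over `i` of `cf` is
`(1/n) sum over s < n of G s e(-s c)` with `G s = sum_i sw (t x_i + s (t (e x_i)))
= sum_i sw ((t (1 + e s)) x_i)`; for `s` not bad `t (1 + e s)` is prime to all orders, so `G s = 0` by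
`Rel`; for the at most one bad `s`: `|G s| ≤ N/2`. -/
def S_Tot : Prop := ∀ (ι : Type) [Fintype ι] (x : ι → UnitAddCircle) (N e n t : ℕ)
  (c : UnitAddCircle), Fintype.card ι ≤ N → Rel x → 0 < n → bad x e n ≤ 1 →
  (∀ i, t.Coprime (addOrderOf (x i))) →
  ‖∑ i, cf n (t • x i) (t • (e • x i)) c‖ ≤ N / (2 * n)

/-- (160 lines, the main estimate) Uses `S_Far`, `S_Near`, `S_Tot`. `C` is a cluster: `e x_i = K_i w` for
`i ∈ C`, `D = sum |K_i|`, `ord w ≥ 32 N D^2`; for `1 ≤ l ≤ D` the frequency `l w` is not a small multiple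
(`≤ 4 N l`) of the other `e x_j`. Then the sum `S_l` has absolute value `< 1` after every conjugation `t`.
PROOF. Write `V_i = e x_i`, `d = ord w ≥ 32 N D^2` (so `d > D ≥ l`, `N ≥ 1`), `c = t l w`. As `t` is prime
to the orders of all `x_i`, multiplication by `t` is injective on the subgroup generated by the `x_i`
and `w` (hypothesis: `t` is prime to `ord w`); so `k (t V_i) = t l w` iff `k V_i = l w`, `t V_i` has the
order of `V_i` and `c ≠ 0`. `S_Tot`: `‖sum_i cf‖ ≤ N/(2n)`.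
(1) `j ∉ C`: `S_Far` with `R = 4 N l`: `‖cf‖ ≤ 1/(16 N l)`.
(2) `i ∈ C`, `K_i` does not divide `l`: if `k V_i = l w` then `d | k K_i - l ≠ 0`, so
`|k| ≥ (d - l)/|K_i|`: `‖cf‖ ≤ |K_i|/(4 (d - l))`.
(3) `i ∈ C`, `K_i | l`: `V_i = K_i w` has order `≥ d/|K_i|` and `2 |l/K_i| ≤ 2 l ≤ ord V_i`; `S_Near` with
`k = l/K_i`: `cf = i e((l/K_i) t x_i) K_i/(2 pi l) + E_i`, `‖E_i‖ ≤ 5 |K_i| / (2 d)`.
Multiply the sum by `2 pi l`: `‖S_l‖ ≤ 2 pi l (N/(2n) + (N-1)/(16 N l) + D/(4 (d-l)) + 5 D/(2 d))`, where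
`n ≥ ord V_i ≥ d/D` for an `i ∈ C` (so `N/(2n) ≤ N D/(2 d)`), `l ≤ D`, `d ≥ 32 N D^2`:
`≤ pi/8 (N-1)/N + [pi/2 (32/31) + 5 pi + pi N] / (32 N) < 1` (`N = 1`: `0.65`, `N ≥ 2`: smaller than `0.6`).
(The number of `j ∉ C` is at most `N - 1` because `C` is not empty.) -/
def S_Small : Prop := ∀ (ι : Type) [Fintype ι] (x : ι → UnitAddCircle) (N e n : ℕ)
  (C : Finset ι) (w : UnitAddCircle) (K : ι → ℤ) (D l t : ℕ),
  Fintype.card ι ≤ N → Rel x → 0 < n → (∀ i, n • (e • x i) = 0) → n • w = 0 → bad x e n ≤ 1 →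
  C.Nonempty → (∀ i ∈ C, K i ≠ 0 ∧ e • x i = K i • w) → ∑ i ∈ C, (K i).natAbs = D →
  32 * N * D ^ 2 ≤ addOrderOf w → 1 ≤ l → l ≤ D →
  (∀ j, j ∉ C → ∀ k : ℤ, k • (e • x j) = l • w → 4 * N * (l : ℝ) ≤ |(k : ℝ)|) →
  (∀ i, t.Coprime (addOrderOf (x i))) → t.Coprime (addOrderOf w) →
  ‖∑ i ∈ C with K i ∣ (l : ℤ), (K i : ℂ) * ee (((l : ℤ) / K i) • (t • x i))‖ < 1

/-- (90 lines) An algebraic integer all of whose conjugates are smaller than `1` is `0`. PROOF. Put
`y_i = a_i / m` and `P = sum c_i X^(a_i)` in `ℤ[X]`, so that the sum for `t` is `P(z^t)`, `z = exp(2 pi i/m)`.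
In a cyclotomic field `F = CyclotomicField m ℚ` (`m > 0`) with the primitive root `ζ` the element
`u = P(ζ)` is integral and every embedding `F → ℂ` maps `ζ` to `z^t` with `t` prime to `m`
(`IsPrimitiveRoot.isPrimitiveRoot_iff`), so all its conjugates have absolute value `< 1`; its norm is an
integer and the product of the conjugates (`Algebra.norm_eq_prod_embeddings`,
`Algebra.isIntegral_norm`), so it is `0`, `u = 0`, and `P(z) = 0`. -/
def S_Norm : Prop := ∀ (ι : Type) (C : Finset ι) (a : ι → ℤ) (y : ι → UnitAddCircle) (m : ℕ),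
  0 < m → (∀ i ∈ C, m • y i = 0) →
  (∀ t : ℕ, t.Coprime m → ‖∑ i ∈ C, (a i : ℂ) * ee (t • y i)‖ < 1) →
  ∑ i ∈ C, (a i : ℂ) * ee (y i) = 0

/-- (60 lines) The solutions of `K y = x`, `K ≠ 0`: there are `|K|` of them, and the sum of the `l`-th
powers `e(l y)` is `|K| e((l/K) x)` or `0`. PROOF. `x = r` real; for `K > 0` the solutions are
`(r + j)/K`, `0 ≤ j < K`, pairwise different; `sum e(l (r+j)/K) = e(l r/K) sum e(l j/K)`, a geometric
sum, `= K` if `K | l`, else `0`. For `K < 0` replace `(K, x)` by `(-K, -x)`. -/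
def S_Roots : Prop := ∀ (K : ℤ) (x : UnitAddCircle), K ≠ 0 →
  ∃ R : Finset UnitAddCircle, R.card = K.natAbs ∧ (∀ y, y ∈ R ↔ K • y = x) ∧
    ∀ l : ℤ, ∑ y ∈ R, ee (l • y) = if K ∣ l then (K.natAbs : ℂ) * ee ((l / K) • x) else 0

/-- (90 lines) Vandermonde. Uses `S_Roots`. PROOF. Let `R` be the union of the root sets of `i ∈ C`,
`card R ≤ D = sum |K_i|`, `mu y = sum over i ∈ C with K_i y = x_i of sign K_i`. For `1 ≤ l ≤ D`:
`sum over y ∈ R of mu y e(l y) = sum over i ∈ C of sign K_i * sum over the roots = S_l = 0`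
(`sign K * |K| = K`). The numbers `e(y)` are different and not `0`, so `mu = 0` on `R` by Vandermonde
(`Matrix.eq_zero_of_forall_pow_sum_mul_pow_eq_zero`, for `mu y e(y)` and the powers
`0, .., card R - 1`); outside `R` the sum is empty. -/
def S_Van : Prop := ∀ (ι : Type) (C : Finset ι) (K : ι → ℤ) (x : ι → UnitAddCircle),
  (∀ i ∈ C, K i ≠ 0) →
  (∀ l : ℕ, 1 ≤ l → l ≤ ∑ i ∈ C, (K i).natAbs →
    ∑ i ∈ C with K i ∣ (l : ℤ), (K i : ℂ) * ee (((l : ℤ) / K i) • x i) = 0) →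
  ∀ y : UnitAddCircle, ∑ i ∈ C with K i • y = x i, (K i).sign = 0

/-- (80 lines) The family of a cluster without arrows. Uses `S_Small`, `S_Norm`, `S_Van`. PROOF. Let
`m` be the product of the orders of all `x_i` and of `w` (all finite: the order of `w` is positive as
`32 N D^2 ≥ 1`). For `1 ≤ l ≤ D` `S_Norm` with `y_i = (l/K_i) x_i`, `a_i = K_i` on the `i ∈ C` with
`K_i | l` and `S_Small` (a number `t` prime to `m` is prime to all orders;
`(l/K_i) (t x_i) = t ((l/K_i) x_i)`) give `S_l = 0`; then `S_Van`. -/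
def S_FamC : Prop := ∀ (ι : Type) [Fintype ι] (x : ι → UnitAddCircle) (N e n : ℕ)
  (C : Finset ι) (w : UnitAddCircle) (K : ι → ℤ) (D : ℕ),
  (∀ i, IsOfFinAddOrder (x i)) →
  Fintype.card ι ≤ N → Rel x → 0 < n → (∀ i, n • (e • x i) = 0) → n • w = 0 → bad x e n ≤ 1 →
  C.Nonempty → (∀ i ∈ C, K i ≠ 0 ∧ e • x i = K i • w) → ∑ i ∈ C, (K i).natAbs = D →
  32 * N * D ^ 2 ≤ addOrderOf w →
  (∀ l : ℕ, 1 ≤ l → l ≤ D → ∀ j, j ∉ C → ∀ k : ℤ, k • (e • x j) = l • w →
    4 * N * (l : ℝ) ≤ |(k : ℝ)|) →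
  Fam C K x

/-- (130 lines, pure combinatorics) The cycle lemma. `A` an additive commutative group. PROOF. Suppose the
conclusion is false. Choose an arrow `f a` with `l_a, k_a` for every `a ∈ L` with `T ≤ ord (w a)`, and
let `a_0`, `a_(i+1) = f a_i` as long as possible. Claim: if `a_0, .., a_i` are different, then
`ord (w a_i) * prod over j < i of D a_j ≥ ord (w a_0)`, hence `≥ T`: indeed `l w_a = k w_b` gives
`ord (w b) ≥ ord (k w_b) = ord (l w_a) ≥ ord (w a)/l ≥ ord (w a)/D_a`, and the product over different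
elements is at most `P`. `L` is finite: let `b` be minimal with `a_b = a_a`, `a < b`
(`b ≤ card L ≤ N`). From the arrows `(prod over a ≤ i < b of l_i) w = (prod k_i) w`, `w = w (a_a)`; the
order of `w` is `> (4N)^N P^2 + P ≥ |prod k_i| + prod l_i` (`|k_i| ≤ 4 N D_(a_i) D_(a_(i+1))`, every
`D` of the cycle occurs twice; `l_i ≤ D_(a_i)`), so `prod l_i = prod k_i`. But by assumption
`|k_i| > D_(a_(i+1))` for all `i` (otherwise the conclusion holds), so
`|prod k_i| > prod D ≥ prod l_i`. Contradiction. -/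
def S_Cyc : Prop := ∀ (A ι : Type) [AddCommGroup A] (L : Finset ι) (D : ι → ℕ) (w : ι → A)
  (N P T : ℕ) (a0 : ι), 1 ≤ N → L.card ≤ N → (∀ a ∈ L, 1 ≤ D a) → ∏ a ∈ L, D a = P → a0 ∈ L →
  IsOfFinAddOrder (w a0) → T * P ≤ addOrderOf (w a0) → (4 * N) ^ N * P ^ 2 + P < T →
  (∀ a ∈ L, T ≤ addOrderOf (w a) → ∃ b ∈ L, b ≠ a ∧ ∃ (l : ℕ) (k : ℤ), 1 ≤ l ∧ l ≤ D a ∧ k ≠ 0 ∧
    k.natAbs ≤ 4 * N * D a * D b ∧ l • w a = k • w b) →
  ∃ a ∈ L, ∃ b ∈ L, a ≠ b ∧ ∃ (l : ℕ) (k : ℤ), 1 ≤ l ∧ l ≤ D a ∧ k ≠ 0 ∧ k.natAbs ≤ D b ∧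
    l • w a = k • w b

/-- The degree of the cluster with the label `a`. -/
def DD {ι : Type} [Fintype ι] (c : ι → ι) (K : ι → ℤ) (a : ι) : ℕ :=
  ∑ i with c i = a, (K i).natAbs

/-- A state: multiplier `g`, labels `c`, generators `w`, integers `K`. -/
structure St {ι : Type} [Fintype ι] (x : ι → UnitAddCircle) (N e g : ℕ) (c : ι → ι)
    (w : ι → UnitAddCircle) (K : ι → ℤ) : Prop where
  g0 : 0 < g
  K0 : ∀ i, K i ≠ 0
  hV : ∀ i, (g * e) • x i = K i • w (c i)
  hw : ∀ n : ℕ, (∀ i, n • ((g * e) • x i) = 0) → ∀ i, n • w (c i) = 0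
  hg : g * ∏ a ∈ univ.image c, DD c K a ≤ 2 ^ (N - (univ.image c).card)

/-- (120 lines) Merging of two clusters. PROOF. `u = gcd(l, |k|)`, `l = u l'`, `k = u k'`,
`a l' + b k' = 1` (Bezout). New generator of the label `p`: `v = a (u w_q) + b (u w_p)`; the label `q`
disappears. From `l w_p = k w_q`: `l' (u w_p) = k' (u w_q)`, hence `k' v = a k' (u w_q) + b k' (u w_p)
= a l' (u w_p) + b k' (u w_p) = u w_p` and `l' v = u w_q`. New data: `g' = u g`, `c' i = p` if `c i = q`,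
else `c i`; `w' p = v`, `w' r = u w_r` for the other labels; `K' i = k' K_i` if `c i = p`, `l' K_i` if
`c i = q`, else `K_i`. `hV`: clear. `hw`: `n (u V_i) = 0` gives `(n u) w = 0` for all labels, so
`n (u w_r) = 0` and `n v = 0`. `hg`: the degree of `p` is `|k'| D_p + l' D_q`, and
`u (|k'| D_p + l' D_q) = |k| D_p + l D_q ≤ 2 D_p D_q`; the number of labels drops by one (it was
`≤ card ι ≤ N`). -/
def S_Merge : Prop := ∀ (ι : Type) [Fintype ι] (x : ι → UnitAddCircle) (N e g : ℕ) (c : ι → ι)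
  (w : ι → UnitAddCircle) (K : ι → ℤ) (p q : ι) (l : ℕ) (k : ℤ), Fintype.card ι ≤ N →
  St x N e g c w K → p ∈ univ.image c → q ∈ univ.image c → p ≠ q → 1 ≤ l → l ≤ DD c K p → k ≠ 0 →
  k.natAbs ≤ DD c K q → l • w p = k • w q →
  ∃ (g' : ℕ) (c' : ι → ι) (w' : ι → UnitAddCircle) (K' : ι → ℤ),
    St x N e g' c' w' K' ∧ (univ.image c').card + 1 = (univ.image c).card

/-- (150 lines, elementary number theory) Choice of the progression. PROOF. `m` = lcm of the orders of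
all `x_i`, `B = (32 N)^N`. `MM N` does not kill `x_(i1)`, so there is a prime power `p^a`, `a ≥ 1`,
dividing `ord x_(i1)` and not `MM N`, hence `p^a > (32N)^(2N) = B^2`.
Case I: `p > B` and `p^2` does not divide `m`. Take `e` with `e ≡ 1 mod p`, `e ≡ 0 mod m/p` (`p` and
`m/p` are coprime), `i0 = i1`: `e x_(i1)` has the order `p > B`. For `1 ≤ g ≤ 2^(N-1) < p` take
`n = p`: `p g e x_i = 0` since `m | p e`; `1 + g e s` is prime to `m/p` and, mod `p`, equal to `1 + g s`,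
which vanishes for exactly one `s < p`; so `bad ≤ 1`.
Case II: otherwise take `e = rad m` (product of the primes dividing `m`). If `p > B` then `p^2` divides
some `ord x_(i0)`, and `e x_(i0)` has an order divisible by `p > B`. If `p ≤ B` then `p^(a-1) > B`, and
`e x_(i1)` has an order divisible by `p^(a-1)`, `i0 = i1`. For every `g` take `n = m`: `1 + g e s` is
prime to `m` for all `s`, so `bad = 0`. -/
def S_Prog : Prop := ∀ (ι : Type) [Fintype ι] (x : ι → UnitAddCircle) (N : ℕ) (i1 : ι),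
  (∀ i, IsOfFinAddOrder (x i)) → Fintype.card ι ≤ N → MM N • x i1 ≠ 0 →
  ∃ (e : ℕ) (i0 : ι), (32 * N) ^ N < addOrderOf (e • x i0) ∧
    ∀ g : ℕ, 1 ≤ g → g ≤ 2 ^ (N - 1) → ∃ n : ℕ, 0 < n ∧ (∀ i, n • ((g * e) • x i) = 0) ∧
      bad x (g * e) n ≤ 1

/-- (20 lines) The numerical inequality. PROOF. `(32 N)^N = 8^N (4N)^N`, `2^(N-1) 4^(N-1) = 8^(N-1)`:
the left sides are `8^(N-1) (4N)^N + 4^(N-1) + 2^(N-1)`, and `4 N 8^N`. -/
def S_Num : Prop := ∀ N : ℕ, 1 ≤ N →
  2 ^ (N - 1) * ((4 * N) ^ N * 4 ^ (N - 1) + 2 ^ (N - 1) + 1) ≤ (32 * N) ^ N ∧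
  2 ^ (N - 1) * (32 * N * 4 ^ (N - 1)) ≤ (32 * N) ^ N

/-- (150 lines) One step. Uses `S_FamC`, `S_Cyc`, `S_Num`. A state either contains a family or two labels
which can be merged. PROOF. `L = image c`, `P = prod over L of DD`, `g P ≤ 2^(N - card L) ≤ 2^(N-1)`, all
`DD ≥ 1` (the label is in the image and `K ≠ 0`), so `g, P ≤ 2^(N-1)`. `a0 = c i0`:
`(g e) x_(i0) = K w_(a0)`, so `ord w_(a0) ≥ ord (g (e x_(i0))) ≥ ord (e x_(i0)) / g > (32N)^N / g` (it is
finite by `hw` with the `n` of the progression). Let `T = ord w_(a0) / P` (floor). `S_Num`: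
`g P ((4N)^N P^2 + P + 1) ≤ (32N)^N < g ord w_(a0)`, so `(4N)^N P^2 + P + 1 ≤ T`, and in the same way
`32 N P^2 ≤ T`. If the first alternative is false, then for every label `a` with `T ≤ ord w_a` `S_FamC`
(contraposition) with `C = {i : c i = a}`, `D = DD a ≤ P` and `n` from the progression for this `g`
(`n w_a = 0` by `hw`) gives `l ≤ D`, `j` with `c j = b ≠ a` and `k` with `k ((g e) x_j) = l w_a`,
`|k| < 4 N l`; `k ≠ 0` because `l w_a ≠ 0` (`0 < l ≤ D < T ≤ ord w_a`). So `l w_a = (k K_j) w_b`,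
`|k K_j| ≤ 4 N D_a D_b`. `S_Cyc` (for the finite set `L`, `card L ≤ card ι ≤ N`) gives the second
alternative. In the first alternative `sum |K_i| = DD a ≤ P ≤ 2^(N-1)`. -/
def S_Step : Prop := ∀ (ι : Type) [Fintype ι] (x : ι → UnitAddCircle) (N e g : ℕ) (c : ι → ι)
  (w : ι → UnitAddCircle) (K : ι → ℤ) (i0 : ι), Fintype.card ι ≤ N → (∀ i, IsOfFinAddOrder (x i)) →
  Rel x → (32 * N) ^ N < addOrderOf (e • x i0) →
  (∀ g : ℕ, 1 ≤ g → g ≤ 2 ^ (N - 1) → ∃ n : ℕ, 0 < n ∧ (∀ i, n • ((g * e) • x i) = 0) ∧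
      bad x (g * e) n ≤ 1) →
  St x N e g c w K →
  (∃ (C : Finset ι) (K' : ι → ℤ), C.Nonempty ∧ Fam C K' x ∧ ∑ i ∈ C, |K' i| ≤ 2 ^ (N - 1)) ∨
  ∃ (p q : ι) (l : ℕ) (k : ℤ), p ∈ univ.image c ∧ q ∈ univ.image c ∧ p ≠ q ∧ 1 ≤ l ∧
    l ≤ DD c K p ∧ k ≠ 0 ∧ k.natAbs ≤ DD c K q ∧ l • w p = k • w q

/-- (70 lines) The core lemma from `S_Prog`, `S_Step`, `S_Merge`. PROOF. Take `e`, `i0` from `S_Prog` and
start with the state `g = 1`, `c = id`, `w i = e x_i`, `K = 1` (all `DD = 1`). Induction on the number of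
labels `(univ.image c).card`: `S_Step` gives a family or two labels, `S_Merge` a state with one label
less; with no label left `ι` is empty, but `i0 : ι`. The statement is
`theorem t_CoreAsm (h1 : S_Prog) (h2 : S_Step) (h3 : S_Merge) : S_Core`. (`S_Core` has a
`DecidableEq ι` which is not used: `classical` and `convert` or ignore it.) -/
def S_CoreAsm : Prop := S_Prog → S_Step → S_Merge → S_Core

end Pool.Agent.FC
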